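import Mathlib

/-!
# Common zeros of few forms over an algebraically closed field
-/

namespace Pool.Agent.Helper49.VF

open MvPolynomial

variable {k : Type*} [Field k] {σ : Type*}

/-- The translation automorphism `X i ↦ X i + a i` of the polynomial ring. -/
noncomputable def transl (a : σ → k) : MvPolynomial σ k ≃ₐ[k] MvPolynomial σ k :=
  AlgEquiv.ofAlgHom (aeval fun i => X i + C (a i)) (aeval fun i => X i - C (a i))
    (by ext i; simp) (by ext i; simp)

lemma aeval_transl (a b : σ → k) (f : MvPolynomial σ k) :
    aeval b (transl a f) = aeval (b + a) f := by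
  have : ((aeval b : MvPolynomial σ k →ₐ[k] k).comp (transl a).toAlgHom) = aeval (b + a) := by
    ext i
    simp [transl]
  exact DFunLike.congr_fun this f

lemma comap_transl (a b : σ → k) :
    (vanishingIdeal k ({a} : Set (σ → k)) : Ideal (MvPolynomial σ k)).comap
      ((transl (b - a)).toRingEquiv : MvPolynomial σ k ≃+* MvPolynomial σ k)
      = vanishingIdeal k ({b} : Set (σ → k)) := by
  ext f
  rw [Ideal.mem_comap, mem_vanishingIdeal_singleton_iff, mem_vanishingIdeal_singleton_iff]
  have := aeval_transl (b - a) a f
  rw [add_sub_cancel] at this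
  rw [← this]
  rfl

lemma height_eq_height (a b : σ → k) :
    (vanishingIdeal k ({a} : Set (σ → k)) : Ideal (MvPolynomial σ k)).height
      = (vanishingIdeal k ({b} : Set (σ → k)) : Ideal (MvPolynomial σ k)).height := by
  rw [← comap_transl a b, RingEquiv.height_comap]

lemma height_point [IsAlgClosed k] [Fintype σ] (a : σ → k) :
    (vanishingIdeal k ({a} : Set (σ → k)) : Ideal (MvPolynomial σ k)).height
      = (Fintype.card σ : ℕ∞) := by
  have hdim : ringKrullDim (MvPolynomial σ k) = (Fintype.card σ : ℕ∞) := by
    rw [MvPolynomial.ringKrullDim_of_isNoetherianRing, ringKrullDim_eq_zero_of_field,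
      Nat.card_eq_fintype_card]
    simp
  have : FiniteRingKrullDim (MvPolynomial σ k) := by
    rw [finiteRingKrullDim_iff_ne_bot_and_top, hdim]
    constructor
    · exact WithBot.coe_ne_bot
    · intro h
      have h2 : ((Fintype.card σ : ℕ∞) : WithBot ℕ∞) = ((⊤ : ℕ∞) : WithBot ℕ∞) := h
      rw [WithBot.coe_inj] at h2
      exact ENat.natCast_ne_top _ h2
  obtain ⟨m, hm, hh⟩ := Ideal.exists_isMaximal_height (R := MvPolynomial σ k)
  obtain ⟨x, rfl⟩ := isMaximal_iff_eq_vanishingIdeal_singleton.mp hm
  rw [hdim, WithBot.coe_inj] at hh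
  rw [height_eq_height a x, hh]

/-- Fewer forms of positive degree than variables have a nontrivial common zero over an
algebraically closed field. -/
theorem exists_common_zero [IsAlgClosed k] [Fintype σ] (s : Finset (MvPolynomial σ k))
    (hs : ∀ q ∈ s, ∃ m : ℕ, 0 < m ∧ q.IsHomogeneous m) (hcard : s.card < Fintype.card σ) :
    ∃ w : σ → k, w ≠ 0 ∧ ∀ q ∈ s, eval w q = 0 := by
  by_contra hcon
  push Not at hcon
  have hz : zeroLocus k (Ideal.span (s : Set (MvPolynomial σ k))) = {(0 : σ → k)} := by
    ext w
    rw [Set.mem_singleton_iff]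
    constructor
    · intro hw
      by_contra hw0
      obtain ⟨q, hq, hne⟩ := hcon w hw0
      apply hne
      have := hw q (Ideal.subset_span hq)
      simpa [MvPolynomial.aeval_eq_eval] using this
    · rintro rfl
      intro q hq
      have hle : Ideal.span (s : Set (MvPolynomial σ k)) ≤
          vanishingIdeal k ({0} : Set (σ → k)) := by
        rw [Ideal.span_le]
        intro q hq
        obtain ⟨m, hm, hh⟩ := hs q hq
        rw [SetLike.mem_coe, mem_vanishingIdeal_singleton_iff]
        have : constantCoeff q = 0 := by
          rw [constantCoeff_eq]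
          apply hh.coeff_eq_zero
          simp
          omega
        rw [aeval_eq_eval]
        have h0 := MvPolynomial.eval_zero' (R := k) (σ := σ)
        simpa [h0] using this
      have := hle hq
      rwa [mem_vanishingIdeal_singleton_iff] at this
  have hrad : (Ideal.span (s : Set (MvPolynomial σ k))).radical =
      vanishingIdeal k ({0} : Set (σ → k)) := by
    rw [← hz, vanishingIdeal_zeroLocus_eq_radical]
  have hmin : (vanishingIdeal k ({0} : Set (σ → k)) : Ideal (MvPolynomial σ k)) ∈
      (Ideal.span (s : Set (MvPolynomial σ k))).minimalPrimes := by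
    rw [← Ideal.radical_minimalPrimes, hrad, Ideal.minimalPrimes_eq_subsingleton_self]
    simp
  have h1 := Ideal.height_le_card_of_mem_minimalPrimes_span_finset hmin
  rw [height_point] at h1
  have h2 : Fintype.card σ ≤ s.card := by exact_mod_cast h1
  omega

end Pool.Agent.Helper49.VF
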