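import Pool.Agent.Helper49.VF.Defs

/-!
# A surjectivity criterion for very free curves
-/

namespace Pool.Agent.Helper49.VF

open MvPolynomial

variable {k : Type*} [Field k]

/-- Scaling the point. -/
lemma aeval_scale {A : Type*} [CommRing A] [Algebra k A] {σ : Type*} {G : MvPolynomial σ k} {n : ℕ}
    (hG : G.IsHomogeneous n) (r : A) (v : σ → A) :
    aeval (fun i => r * v i) G = r ^ n * aeval v G := by
  classical
  rw [aeval_def, aeval_def, eval₂_eq, eval₂_eq, Finset.mul_sum]
  refine Finset.sum_congr rfl fun m hm => ?_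
  have h1 : ∑ i ∈ m.support, m i = n := (hG.degree_eq_sum_deg_support hm).symm
  simp only [mul_pow]
  rw [Finset.prod_mul_distrib, Finset.prod_pow_eq_pow_sum, h1]
  ring

/-- A binary form vanishing at `z` is divisible by the linear form vanishing at `z`. -/
lemma exists_factor {m : ℕ} {G : MvPolynomial (Fin 2) k} (hG : G.IsHomogeneous (m + 1))
    {z : Fin 2 → k} (hz : z ≠ 0) (h0 : eval z G = 0) :
    ∃ h : MvPolynomial (Fin 2) k, h.IsHomogeneous m ∧
      G = (C (z 1) * X 0 - C (z 0) * X 1) * h := by
  set L : MvPolynomial (Fin 2) k := C (z 1) * X 0 - C (z 0) * X 1 with hL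
  have hLh : L.IsHomogeneous 1 :=
    (isHomogeneous_C_mul_X _ _).sub (isHomogeneous_C_mul_X _ _)
  have hdvd : L ∣ G := by
    rw [← Ideal.mem_span_singleton, ← Ideal.Quotient.eq_zero_iff_mem]
    set π := Ideal.Quotient.mkₐ k (Ideal.span {L}) with hπ
    have hL0 : π L = 0 := by
      rw [hπ, Ideal.Quotient.mkₐ_eq_mk, Ideal.Quotient.eq_zero_iff_mem]
      exact Ideal.mem_span_singleton_self L
    have hrel : algebraMap k _ (z 1) * π (X 0) = algebraMap k _ (z 0) * π (X 1) := by
      have : π L = algebraMap k _ (z 1) * π (X 0) - algebraMap k _ (z 0) * π (X 1) := by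
        change π (C (z 1) * X 0 - C (z 0) * X 1) = _
        rw [map_sub, map_mul, map_mul]
        rfl
      rw [this] at hL0
      exact sub_eq_zero.mp hL0
    have key : ∀ v : Fin 2 → MvPolynomial (Fin 2) k ⧸ Ideal.span {L}, ∀ r,
        (∀ i, v i = r * algebraMap k _ (z i)) → aeval v G = 0 := by
      intro v r hv
      have : v = fun i => r * (algebraMap k _ (z i)) := funext hv
      rw [this, aeval_scale hG]
      have h2 : aeval (fun i => algebraMap k (MvPolynomial (Fin 2) k ⧸ Ideal.span {L}) (z i)) G
          = algebraMap k _ (aeval z G) := by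
        rw [← aeval_algebraMap_apply]
        rfl
      rw [h2, aeval_eq_eval]
      simp [h0]
    have hπG : π G = aeval (fun i => π (X i)) G := by
      rw [← comp_aeval_apply, aeval_X_left_apply]
    change π G = 0
    rw [hπG]
    by_cases h1 : z 1 = 0
    · have h00 : z 0 ≠ 0 := by
        intro h
        apply hz
        ext i
        fin_cases i
        · simpa using h
        · simpa using h1
      apply key _ (π (X 0) * algebraMap k _ (z 0)⁻¹)
      intro i
      fin_cases i
      · simp only [Fin.zero_eta, Fin.isValue]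
        rw [mul_assoc, ← map_mul, inv_mul_cancel₀ h00, map_one, mul_one]
      · simp only [Fin.mk_one, Fin.isValue]
        have e1 : π (X 1) = algebraMap k _ (z 0)⁻¹ * (algebraMap k _ (z 0) * π (X 1)) := by
          rw [← mul_assoc, ← map_mul, inv_mul_cancel₀ h00, map_one, one_mul]
        rw [e1, ← hrel]
        ring
    · apply key _ (π (X 1) * algebraMap k _ (z 1)⁻¹)
      intro i
      fin_cases i
      · simp only [Fin.zero_eta, Fin.isValue]
        have e1 : π (X 0) = algebraMap k _ (z 1)⁻¹ * (algebraMap k _ (z 1) * π (X 0)) := by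
          rw [← mul_assoc, ← map_mul, inv_mul_cancel₀ h1, map_one, one_mul]
        rw [e1, hrel]
        ring
      · simp only [Fin.mk_one, Fin.isValue]
        rw [mul_assoc, ← map_mul, inv_mul_cancel₀ h1, map_one, mul_one]
  obtain ⟨h, hh⟩ := hdvd
  refine ⟨homogeneousComponent m h, homogeneousComponent_isHomogeneous _ _, ?_⟩
  have e1 : homogeneousComponent (m + 1) G = G := homogeneousComponent_eq_self hG
  have e2 : homogeneousComponent (m + 1) (L * h) = L * homogeneousComponent m h := by
    conv_lhs => rw [← sum_homogeneousComponent h, Finset.mul_sum, map_sum]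
    have : ∀ i ∈ Finset.range (h.totalDegree + 1),
        homogeneousComponent (m + 1) (L * homogeneousComponent i h) =
          if i = m then L * homogeneousComponent m h else 0 := by
      intro i _
      have hi : (L * homogeneousComponent i h).IsHomogeneous (1 + i) :=
        hLh.mul (homogeneousComponent_isHomogeneous _ _)
      rw [homogeneousComponent_of_mem hi]
      by_cases him : i = m
      · subst him
        simp [add_comm]
      · rw [if_neg him, if_neg (by omega)]
    rw [Finset.sum_congr rfl this, Finset.sum_ite_eq']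
    split_ifs with hmem
    · rfl
    · rw [homogeneousComponent_eq_zero, mul_zero]
      simp only [Finset.mem_range, not_lt] at hmem
      omega
  rw [← e2, ← hh, e1]

/-- A linear form taking the value one at a given nonzero point. -/
lemma exists_linear {z : Fin 2 → k} (hz : z ≠ 0) :
    ∃ l : MvPolynomial (Fin 2) k, l.IsHomogeneous 1 ∧ eval z l = 1 := by
  obtain ⟨i, hi⟩ : ∃ i, z i ≠ 0 := by
    by_contra h
    push Not at h
    exact hz (funext h)
  refine ⟨C (z i)⁻¹ * X i, isHomogeneous_C_mul_X _ _, ?_⟩
  simp [inv_mul_cancel₀ hi]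

lemma eval_bind {σ τ : Type*} (z : τ → k) (f : σ → MvPolynomial τ k) (P : MvPolynomial σ k) :
    eval z (bind₁ f P) = eval (fun j => eval z (f j)) P := by
  have := aeval_bind₁ (R := k) (S := k) z f P
  simpa [aeval_eq_eval] using this

/-- **Criterion.** If the map `g ↦ (∑ i, (∂ F b / ∂ x i)(f) * g i)_b` from tuples of binary forms
of degree `e - 2` to tuples of binary forms of degrees `d b * e - 2` is surjective, then `f` is
very free. -/
theorem isVeryFree_of_surj {N c : ℕ} {F : Fin c → MvPolynomial (Fin (N + 1)) k} {d : Fin c → ℕ}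
    (hF : ∀ b, (F b).IsHomogeneous (d b + 1)) {e : ℕ}
    {f : Fin (N + 1) → MvPolynomial (Fin 2) k} (hf : ∀ i, (f i).IsHomogeneous (e + 2))
    (hsurj : ∀ h : Fin c → MvPolynomial (Fin 2) k,
      (∀ b, (h b).IsHomogeneous (d b * (e + 2) + e)) →
      ∃ g : Fin (N + 1) → MvPolynomial (Fin 2) k, (∀ i, (g i).IsHomogeneous e) ∧
        ∀ b, ∑ i, bind₁ f (pderiv i (F b)) * g i = h b) :
    IsVeryFree F (e + 2) f := by
  intro z hz u hu
  obtain ⟨l, hl, hlz⟩ := exists_linear hz
  -- the first approximation
  set w0 : Fin (N + 1) → MvPolynomial (Fin 2) k := fun i => C (u i) * l ^ (e + 1) with hw0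
  have hw0h : ∀ i, (w0 i).IsHomogeneous (e + 1) := by
    intro i
    have := (hl.pow (e + 1)).C_mul (u i)
    rwa [one_mul] at this
  have hw0z : ∀ i, eval z (w0 i) = u i := by
    intro i
    simp [hw0, hlz]
  have hpd : ∀ b i, (bind₁ f (pderiv i (F b))).IsHomogeneous (d b * (e + 2)) := by
    intro b i
    have h1 : (pderiv i (F b)).IsHomogeneous (d b) := by
      simpa using (hF b).pderiv (i := i)
    have := h1.aeval f hf
    rw [mul_comm]
    exact this
  have hfac : ∀ b, ∃ h : MvPolynomial (Fin 2) k, h.IsHomogeneous (d b * (e + 2) + e) ∧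
      ∑ i, bind₁ f (pderiv i (F b)) * w0 i = (C (z 1) * X 0 - C (z 0) * X 1) * h := by
    intro b
    apply exists_factor _ hz
    · rw [map_sum]
      have : ∀ i, eval z (bind₁ f (pderiv i (F b)) * w0 i)
          = eval (fun j => eval z (f j)) (pderiv i (F b)) * u i := by
        intro i
        rw [map_mul, hw0z, eval_bind]
      simp only [this]
      exact hu b
    · apply IsHomogeneous.sum
      intro i _
      have := (hpd b i).mul (hw0h i)
      rwa [← add_assoc] at this
  choose h hh1 hh2 using hfac
  obtain ⟨g, hg1, hg2⟩ := hsurj h hh1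
  refine ⟨fun i => w0 i - (C (z 1) * X 0 - C (z 0) * X 1) * g i, ?_, ?_, 0, ?_⟩
  · intro i
    have hL : (C (z 1) * X 0 - C (z 0) * X 1 : MvPolynomial (Fin 2) k).IsHomogeneous 1 :=
      (isHomogeneous_C_mul_X _ _).sub (isHomogeneous_C_mul_X _ _)
    have := hL.mul (hg1 i)
    rw [add_comm] at this
    exact (hw0h i).sub this
  · intro b
    simp only [mul_sub, Finset.sum_sub_distrib]
    rw [hh2 b, ← hg2 b, Finset.mul_sum, sub_eq_zero]
    refine Finset.sum_congr rfl fun i _ => ?_
    ring
  · intro i
    simp [hw0z, mul_comm]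

end Pool.Agent.Helper49.VF
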