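import Pool.Agent.Helper49.VF.RNC

/-!
# Curves with given coefficient vectors and the matrix deciding very freeness
-/

namespace Pool.Agent.Helper49.VF

open MvPolynomial

section

variable {B B' : Type*} [CommRing B] [CommRing B'] {N : ℕ}

/-- The tuple of binary forms of degree `D` with coefficient vectors `w l`. -/
noncomputable def curve (D : ℕ) (w : Fin (D + 1) → Fin (N + 1) → B) (m : Fin (N + 1)) :
    MvPolynomial (Fin 2) B :=
  ∑ l : Fin (D + 1), C (w l m) * (X 0 ^ (l : ℕ) * X 1 ^ (D - l))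

lemma mono_homogeneous {a D : ℕ} (h : a ≤ D) :
    (X 0 ^ a * X 1 ^ (D - a) : MvPolynomial (Fin 2) B).IsHomogeneous D := by
  have := (isHomogeneous_X_pow (R := B) (0 : Fin 2) a).mul
      (isHomogeneous_X_pow (R := B) (1 : Fin 2) (D - a))
  rwa [Nat.add_sub_cancel' h] at this

lemma curve_homogeneous {D : ℕ} (w : Fin (D + 1) → Fin (N + 1) → B) (m : Fin (N + 1)) :
    (curve D w m).IsHomogeneous D := by
  apply IsHomogeneous.sum
  intro l _
  exact (mono_homogeneous (Nat.lt_succ_iff.mp l.2)).C_mul _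

lemma map_curve {D : ℕ} (φ : B →+* B') (w : Fin (D + 1) → Fin (N + 1) → B) (m : Fin (N + 1)) :
    map φ (curve D w m) = curve D (fun l m => φ (w l m)) m := by
  simp [curve]

variable {k : Type*} [Field k] [Algebra k B] [Algebra k B']

lemma map_aeval_curve {D : ℕ} (φ : B →ₐ[k] B') (w : Fin (D + 1) → Fin (N + 1) → B)
    (P : MvPolynomial (Fin (N + 1)) k) :
    map (φ : B →+* B') (aeval (curve D w) P) = aeval (curve D (fun l m => φ (w l m))) P := by
  have h : (mapAlgHom φ : MvPolynomial (Fin 2) B →ₐ[k] MvPolynomial (Fin 2) B').comp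
      (aeval (curve D w)) = aeval (curve D (fun l m => φ (w l m))) := by
    apply MvPolynomial.algHom_ext
    intro m
    rw [AlgHom.comp_apply, aeval_X, aeval_X]
    exact map_curve (φ : B →+* B') w m
  exact DFunLike.congr_fun h P

variable {c : ℕ}

/-- The matrix of the linear map `g ↦ (∑ m, (∂ F b / ∂ x m)(f) * g m)_b`. -/
noncomputable def psi (F : Fin c → MvPolynomial (Fin (N + 1)) k) (e : Fin c → ℕ) (D : ℕ)
    (w : Fin (D + 2 + 1) → Fin (N + 1) → B) :
    Matrix (Idx e D) (Fin (N + 1) × Fin (D + 1)) B := fun x y =>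
  coeff (ex x.2 ((e x.1 + 1) * (D + 2) + D - x.2))
    (X 0 ^ (y.2 : ℕ) * X 1 ^ (D - y.2) * aeval (curve (D + 2) w) (pderiv y.1 (F x.1)))

lemma map_psi (F : Fin c → MvPolynomial (Fin (N + 1)) k) (e : Fin c → ℕ) (D : ℕ)
    (φ : B →ₐ[k] B') (w : Fin (D + 2 + 1) → Fin (N + 1) → B) (x : Idx e D)
    (y : Fin (N + 1) × Fin (D + 1)) :
    φ (psi F e D w x y) = psi F e D (fun l m => φ (w l m)) x y := by
  unfold psi
  rw [← map_aeval_curve φ w]
  have := coeff_map (φ : B →+* B') (X 0 ^ (y.2 : ℕ) * X 1 ^ (D - y.2) *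
    aeval (curve (D + 2) w) (pderiv y.1 (F x.1))) (ex x.2 ((e x.1 + 1) * (D + 2) + D - x.2))
  rw [map_mul, map_mul, map_pow, map_pow, map_X, map_X] at this
  rw [this]
  rfl

end

variable {k : Type*} [Field k] {N c : ℕ}

theorem hasVeryFreeCurve_of_psi {D : ℕ} (hc : 0 < c)
    {F : Fin c → MvPolynomial (Fin (N + 1)) k} {e : Fin c → ℕ}
    (hF : ∀ b, (F b).IsHomogeneous (e b + 2))
    (w : Fin (D + 2 + 1) → Fin (N + 1) → k) (hw : ∀ b, aeval (curve (D + 2) w) (F b) = 0)
    (Y : Matrix (Fin (N + 1) × Fin (D + 1)) (Idx e D) k) (hY : psi F e D w * Y = 1) :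
    HasVeryFreeCurve F (D + 2) := by
  classical
  set f := curve (D + 2) w with hf
  have hfh : ∀ m, (f m).IsHomogeneous (D + 2) := fun m => curve_homogeneous w m
  have hpd : ∀ b i, (bind₁ f (pderiv i (F b))).IsHomogeneous ((e b + 1) * (D + 2)) := by
    intro b i
    have h1 : (pderiv i (F b)).IsHomogeneous (e b + 1) := by
      simpa using (hF b).pderiv (i := i)
    have h2 := h1.aeval f hfh
    rw [mul_comm] at h2
    exact h2
  have hsurj : ∀ h : Fin c → MvPolynomial (Fin 2) k,
      (∀ b, (h b).IsHomogeneous ((e b + 1) * (D + 2) + D)) →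
      ∃ g : Fin (N + 1) → MvPolynomial (Fin 2) k, (∀ i, (g i).IsHomogeneous D) ∧
        ∀ b, ∑ i, bind₁ f (pderiv i (F b)) * g i = h b := by
    intro H hH
    set hv : Idx e D → k := fun x =>
      coeff (ex x.2 ((e x.1 + 1) * (D + 2) + D - x.2)) (H x.1) with hhv
    set sol : Fin (N + 1) × Fin (D + 1) → k := Y.mulVec hv with hsol
    have hsol' : (psi F e D w).mulVec sol = hv := by
      rw [hsol, Matrix.mulVec_mulVec, hY, Matrix.one_mulVec]
    refine ⟨fun m => ∑ r : Fin (D + 1), C (sol (m, r)) * (X 0 ^ (r : ℕ) * X 1 ^ (D - r)), ?_, ?_⟩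
    · intro m
      apply IsHomogeneous.sum
      intro r _
      exact (mono_homogeneous (Nat.lt_succ_iff.mp r.2)).C_mul _
    · intro b
      apply binary_ext (n := (e b + 1) * (D + 2) + D)
      · apply IsHomogeneous.sum
        intro i _
        apply (hpd b i).mul
        apply IsHomogeneous.sum
        intro r _
        exact (mono_homogeneous (Nat.lt_succ_iff.mp r.2)).C_mul _
      · exact hH b
      · intro τ hτ
        have h1 := congrFun hsol' ⟨b, ⟨τ, Nat.lt_succ_of_le hτ⟩⟩
        rw [Matrix.mulVec, dotProduct, Fintype.sum_prod_type] at h1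
        rw [hhv] at h1
        simp only at h1
        rw [← h1, coeff_sum]
        refine Finset.sum_congr rfl fun m _ => ?_
        rw [Finset.mul_sum, coeff_sum]
        refine Finset.sum_congr rfl fun r _ => ?_
        rw [psi]
        simp only
        have h2 : bind₁ f (pderiv m (F b)) * (C (sol (m, r)) * (X 0 ^ (r : ℕ) * X 1 ^ (D - r))) =
            C (sol (m, r)) * (X 0 ^ (r : ℕ) * X 1 ^ (D - r) *
              aeval (curve (D + 2) w) (pderiv m (F b))) := by
          have : bind₁ f (pderiv m (F b)) = aeval (curve (D + 2) w) (pderiv m (F b)) := rfl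
          rw [this]
          ring
        rw [h2, coeff_C_mul, mul_comm]
  refine ⟨by omega, f, ⟨hfh, ?_, fun b => hw b⟩, ?_⟩
  · intro z hz
    by_contra hcon
    push Not at hcon
    obtain ⟨l, hl, hlz⟩ := exists_linear hz
    obtain ⟨g, hg1, hg2⟩ := hsurj (fun b => l ^ ((e b + 1) * (D + 2) + D)) (by
      intro b
      have := hl.pow ((e b + 1) * (D + 2) + D)
      rwa [one_mul] at this)
    have h1 := congrArg (eval z) (hg2 ⟨0, hc⟩)
    rw [map_pow, hlz, one_pow, map_sum] at h1
    have h2 : ∀ m, eval z (bind₁ f (pderiv m (F ⟨0, hc⟩)) * g m) = 0 := by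
      intro m
      rw [map_mul, eval_bind]
      have h3 : (fun j => eval z (f j)) = fun _ => (0 : k) := funext hcon
      have h0 := MvPolynomial.eval_zero' (R := k) (σ := Fin (N + 1))
      rw [h3, h0, constantCoeff_eq]
      have h4 : (pderiv m (F ⟨0, hc⟩)).IsHomogeneous (e ⟨0, hc⟩ + 1) := by
        simpa using (hF ⟨0, hc⟩).pderiv (i := m)
      rw [h4.coeff_eq_zero (by simp), zero_mul]
    simp only [h2, Finset.sum_const_zero] at h1
    exact zero_ne_one h1
  · exact isVeryFree_of_surj (d := fun b => e b + 1) (fun b => hF b) hfh hsurj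

end Pool.Agent.Helper49.VF
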