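import Mathlib

/-!
# Very free rational curves on smooth complete intersections: definitions

Binary forms are homogeneous elements of `k[s, t] = MvPolynomial (Fin 2) k`.
-/

namespace Pool.Agent.Helper49.VF

open MvPolynomial

/-- The forms `F b` (`b : Fin c`) cut out a smooth complete intersection
`X = V(F 0, …, F (c-1))` of codimension `c` in `P^N` (Jacobian criterion): at every nonzero common
zero the `c` gradients are linearly independent. -/
def IsSmoothCI {k : Type*} [Field k] {N c : ℕ}
    (F : Fin c → MvPolynomial (Fin (N + 1)) k) : Prop :=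
  ∀ z : Fin (N + 1) → k, z ≠ 0 → (∀ b, eval z (F b) = 0) →
    LinearIndependent k (fun (b : Fin c) (i : Fin (N + 1)) => eval z (pderiv i (F b)))

/-- A tuple `f` of `N + 1` binary forms of degree `e` without common zero, satisfying the
equations `F b = 0` identically. These are exactly the tuples that give a morphism
`f : P^1 → X = V(F) ⊆ P^N` with `f^* O(1) = O(e)`. -/
structure IsRationalCurve {k : Type*} [Field k] {N c : ℕ}
    (F : Fin c → MvPolynomial (Fin (N + 1)) k) (e : ℕ)
    (f : Fin (N + 1) → MvPolynomial (Fin 2) k) : Prop where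
  homogeneous : ∀ i, (f i).IsHomogeneous e
  base_point_free : ∀ z : Fin 2 → k, z ≠ 0 → ∃ i, eval z (f i) ≠ 0
  lies_on : ∀ b, bind₁ f (F b) = 0

/-- The vector bundle `f^* T_X (-1)` on `P^1` is globally generated (equivalently all summands
`O(a)` of `f^* T_X` have `a > 0`, i.e. `f^* T_X` is ample).

By the Euler sequence, the fibre of `f^* T_X` at the point `z` is the space of all `u` in `k^(N+1)`
killed by the differentials of the `F b` at `f(z)`, modulo the line through `f(z)`; and the global
sections of `f^* T_X (-1)` are the tuples `w` of binary forms of degree `e - 1` with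
`∑ i, (∂ F b / ∂ x i)(f) * w i = 0` for all `b` (no quotient is needed, as `H^0(O(-1))` and
`H^1(O(-1))` vanish). The condition says that the values of these sections at `z` fill the fibre
at `z`, for every point `z` of `P^1`. -/
def IsVeryFree {k : Type*} [Field k] {N c : ℕ}
    (F : Fin c → MvPolynomial (Fin (N + 1)) k) (e : ℕ)
    (f : Fin (N + 1) → MvPolynomial (Fin 2) k) : Prop :=
  ∀ z : Fin 2 → k, z ≠ 0 → ∀ u : Fin (N + 1) → k,
    (∀ b, ∑ i, eval (fun j => eval z (f j)) (pderiv i (F b)) * u i = 0) →
    ∃ w : Fin (N + 1) → MvPolynomial (Fin 2) k, (∀ i, (w i).IsHomogeneous (e - 1)) ∧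
      (∀ b, ∑ i, bind₁ f (pderiv i (F b)) * w i = 0) ∧
      ∃ r : k, ∀ i, eval z (w i) = u i + r * eval z (f i)

/-- `X = V(F) ⊆ P^N` has a very free rational curve of degree `e`: a (nonconstant) morphism
`f : P^1 → X` with `f^* O(1) = O(e)` and `f^* T_X` ample. -/
def HasVeryFreeCurve {k : Type*} [Field k] {N c : ℕ}
    (F : Fin c → MvPolynomial (Fin (N + 1)) k) (e : ℕ) : Prop :=
  0 < e ∧ ∃ f : Fin (N + 1) → MvPolynomial (Fin 2) k, IsRationalCurve F e f ∧ IsVeryFree F e f

end Pool.Agent.Helper49.VF
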