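import Pool.Agent.Helper49.VF.PowerSpan

/-!
# Very free curves on diagonal hypersurfaces in characteristic p
-/

namespace Pool.Agent.Helper49.VF

open MvPolynomial

variable {k : Type*} [Field k]

/-- Points of `F_q`, `q = p ^ m`, in an algebraically closed field. -/
lemma exists_points [IsAlgClosed k] {p : ℕ} [hp : Fact p.Prime] [CharP k p] {m n : ℕ}
    (hm : m ≠ 0) (hn : n ≤ p ^ m) :
    ∃ P : Fin n → k, Function.Injective P ∧ ∀ j, P j ^ (p ^ m) = P j := by
  classical
  set q : Polynomial k := Polynomial.X ^ (p ^ m) - Polynomial.X with hq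
  have hsep : q.Separable := galois_poly_separable p (p ^ m) (dvd_pow_self p hm)
  have hdeg : q.natDegree = p ^ m :=
    FiniteField.X_pow_card_pow_sub_X_natDegree_eq k hm hp.out.one_lt
  have hcard : Fintype.card (q.rootSet k) = p ^ m := by
    rw [Polynomial.card_rootSet_eq_natDegree hsep (IsAlgClosed.splits _), hdeg]
  have hle : Fintype.card (Fin n) ≤ Fintype.card (q.rootSet k) := by
    rw [hcard, Fintype.card_fin]
    exact hn
  obtain ⟨φ⟩ := Function.Embedding.nonempty_of_card_le hle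
  refine ⟨fun j => (φ j : k), fun a b hab => φ.injective (Subtype.ext hab), fun j => ?_⟩
  have := (Polynomial.mem_rootSet.mp (φ j).2).2
  simp [hq] at this
  exact sub_eq_zero.mp this

/-- The interpolation weights kill polynomials of low degree. -/
lemma sum_weights {N : ℕ} {P : Fin (N + 1) → k} (hP : Function.Injective P) :
    ∃ μ : Fin (N + 1) → k, (∀ j, μ j ≠ 0) ∧ ∀ i < N, ∑ j, μ j * P j ^ i = 0 := by
  classical
  refine ⟨fun j => (∏ l ∈ Finset.univ.erase j, (P j - P l))⁻¹, ?_, ?_⟩
  · intro j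
    apply inv_ne_zero
    rw [Finset.prod_ne_zero_iff]
    intro l hl
    exact sub_ne_zero.mpr (hP.ne (Finset.ne_of_mem_erase hl).symm)
  · intro i hi
    have h1 : (Polynomial.X ^ i : Polynomial k).degree < (Finset.univ : Finset (Fin (N + 1))).card := by
      rw [Polynomial.degree_X_pow, Finset.card_univ, Fintype.card_fin]
      exact_mod_cast hi.trans (Nat.lt_succ_self N)
    have h2 := Lagrange.coeff_eq_sum (s := Finset.univ) (v := P) hP.injOn h1
    rw [Finset.card_univ, Fintype.card_fin, Nat.add_sub_cancel, Polynomial.coeff_X_pow,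
      if_neg (by omega)] at h2
    rw [h2]
    refine Finset.sum_congr rfl fun j _ => ?_
    rw [Polynomial.eval_pow, Polynomial.eval_X, div_eq_mul_inv, mul_comm]

/-- The diagonal form. -/
noncomputable def diagForm {N : ℕ} (a : Fin (N + 1) → k) (d : ℕ) :
    MvPolynomial (Fin (N + 1)) k := ∑ i, C (a i) * X i ^ d

lemma pderiv_diagForm {N : ℕ} (a : Fin (N + 1) → k) (d : ℕ) (j : Fin (N + 1)) :
    pderiv j (diagForm a d) = C ((d : k) * a j) * X j ^ (d - 1) := by
  classical
  rw [diagForm, map_sum, Finset.sum_eq_single j]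
  · rw [Derivation.leibniz, Derivation.leibniz_pow, pderiv_X_self, pderiv_C]
    simp only [smul_eq_mul, nsmul_eq_mul, mul_one, mul_zero, add_zero, map_mul]
    rw [← map_natCast C d]
    ring
  · intro i _ hi
    rw [Derivation.leibniz, Derivation.leibniz_pow, pderiv_C, pderiv_X_of_ne hi]
    simp
  · intro h
    exact absurd (Finset.mem_univ j) h

lemma diagForm_homogeneous {N : ℕ} (a : Fin (N + 1) → k) (d : ℕ) :
    (diagForm a d).IsHomogeneous d :=
  IsHomogeneous.sum _ _ _ fun i _ => isHomogeneous_C_mul_X_pow _ _ _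

theorem diagonal_curve [IsAlgClosed k] {p : ℕ} [hp : Fact p.Prime] [CharP k p]
    {N d a e m : ℕ} (hd : 2 ≤ d) (hpd : ¬ p ∣ d) (co : Fin (N + 1) → k) (hco : ∀ i, co i ≠ 0)
    (ha : 1 ≤ a) (haN : a + 2 ≤ N) (hdN : d ≤ N) (hde : d * e = p ^ m + a) (hea : d * a ≤ e)
    (hm : m ≠ 0) (hQ : N + 1 ≤ p ^ m) :
    HasVeryFreeCurve (fun _ : Fin 1 => diagForm co d) e := by
  classical
  obtain ⟨P, hP, hPQ⟩ := exists_points (k := k) (p := p) hm hQ
  obtain ⟨μ, hμ0, hμ⟩ := sum_weights hP
  have hroot : ∀ j, ∃ l : k, l ^ d = μ j / co j := fun j =>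
    IsAlgClosed.exists_pow_nat_eq _ (by omega)
  choose l hl using hroot
  have hl0 : ∀ j, l j ≠ 0 := by
    intro j h
    have := hl j
    rw [h, zero_pow (by omega)] at this
    exact (div_ne_zero (hμ0 j) (hco j)) this.symm
  have he2 : 2 ≤ e := by nlinarith
  obtain ⟨e', rfl⟩ : ∃ e', e = e' + 2 := ⟨e - 2, by omega⟩
  obtain ⟨d', rfl⟩ : ∃ d', d = d' + 1 := ⟨d - 1, by omega⟩
  obtain ⟨a', rfl⟩ : ∃ a', a = a' + 1 := ⟨a - 1, by omega⟩
  set f : Fin (N + 1) → MvPolynomial (Fin 2) k := fun j => C (l j) * ell (P j) ^ (e' + 2) with hf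
  have hfh : ∀ j, (f j).IsHomogeneous (e' + 2) := by
    intro j
    have := ((ell_homogeneous (P j)).pow (e' + 2)).C_mul (l j)
    rwa [one_mul] at this
  have hdk : ((d' + 1 : ℕ) : k) ≠ 0 := by
    intro h
    exact hpd ((CharP.cast_eq_zero_iff k p _).mp h)
  -- the curve lies on the hypersurface
  have hzero : bind₁ f (diagForm co (d' + 1)) = 0 := by
    have h1 : bind₁ f (diagForm co (d' + 1)) =
        ∑ j, C (μ j) * ell (P j) ^ (p ^ m + (a' + 1)) := by
      rw [diagForm, map_sum]
      refine Finset.sum_congr rfl fun j _ => ?_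
      rw [map_mul, map_pow, bind₁_C_right, bind₁_X_right, hf]
      simp only
      rw [mul_pow, ← pow_mul, ← map_pow, hl, ← mul_assoc, ← map_mul, mul_div_cancel₀ _ (hco j),
        ← hde, mul_comm (e' + 2)]
    have h2 : ∀ j, ell (P j) ^ (p ^ m + (a' + 1)) =
        Polynomial.eval (C (P j)) ((Polynomial.C (X 0) - Polynomial.X * Polynomial.C (X 1)) ^
          (a' + 1) * (Polynomial.C (X 0 ^ (p ^ m)) - Polynomial.X * Polynomial.C (X 1 ^ (p ^ m)))) := by
      intro j
      have h3 : ell (P j) ^ (p ^ m) = X 0 ^ (p ^ m) - C (P j) * X 1 ^ (p ^ m) := by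
        rw [ell, sub_pow_char_pow, mul_pow, ← map_pow, hPQ]
      rw [pow_add, h3, ell]
      simp only [Polynomial.eval_mul, Polynomial.eval_pow, Polynomial.eval_sub, Polynomial.eval_C,
        Polynomial.eval_X]
      ring
    set G : Polynomial (MvPolynomial (Fin 2) k) :=
      (Polynomial.C (X 0) - Polynomial.X * Polynomial.C (X 1)) ^
          (a' + 1) * (Polynomial.C (X 0 ^ (p ^ m)) - Polynomial.X * Polynomial.C (X 1 ^ (p ^ m)))
      with hG
    have hGdeg : G.natDegree < N := by
      have hlin : ∀ u v : MvPolynomial (Fin 2) k,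
          (Polynomial.C u - Polynomial.X * Polynomial.C v).natDegree ≤ 1 := by
        intro u v
        refine (Polynomial.natDegree_sub_le _ _).trans (max_le ?_ ?_)
        · rw [Polynomial.natDegree_C]
          omega
        · refine (Polynomial.natDegree_mul_le).trans ?_
          rw [Polynomial.natDegree_C, Polynomial.natDegree_X]
      have h4 : G.natDegree ≤ (a' + 1) * 1 + 1 := by
        rw [hG]
        refine Polynomial.natDegree_mul_le.trans (add_le_add ?_ (hlin _ _))
        exact Polynomial.natDegree_pow_le_of_le _ (hlin _ _)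
      omega
    rw [h1]
    simp only [h2]
    have h5 : ∀ j, C (μ j) * Polynomial.eval (C (P j)) G =
        ∑ i ∈ Finset.range N, G.coeff i * C (μ j * P j ^ i) := by
      intro j
      rw [Polynomial.eval_eq_sum_range' hGdeg, Finset.mul_sum]
      refine Finset.sum_congr rfl fun i _ => ?_
      rw [map_mul, map_pow]
      ring
    simp only [h5]
    rw [Finset.sum_comm]
    apply Finset.sum_eq_zero
    intro i hi
    rw [← Finset.mul_sum, ← map_sum, hμ i (Finset.mem_range.mp hi), map_zero, mul_zero]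
  have hcurve : IsRationalCurve (fun _ : Fin 1 => diagForm co (d' + 1)) (e' + 2) f := by
    refine ⟨hfh, ?_, fun _ => hzero⟩
    intro z hz
    by_contra hcon
    push Not at hcon
    have h1 : ∀ j, z 0 = P j * z 1 := by
      intro j
      have := hcon j
      rw [hf] at this
      simp only [map_mul, map_pow, eval_C] at this
      rcases mul_eq_zero.mp this with h | h
      · exact absurd h (hl0 j)
      · have h2 := pow_eq_zero_iff (by omega) |>.mp h
        simp [ell] at h2
        exact sub_eq_zero.mp h2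
    have hN1 : 1 < N + 1 := by omega
    have h01 : P ⟨0, by omega⟩ ≠ P ⟨1, hN1⟩ := hP.ne (by simp)
    have h2 := h1 ⟨0, by omega⟩
    have h3 := h1 ⟨1, hN1⟩
    have h4 : (P ⟨0, by omega⟩ - P ⟨1, hN1⟩) * z 1 = 0 := by
      rw [sub_mul, ← h2, ← h3, sub_self]
    have hz1 : z 1 = 0 := by
      rcases mul_eq_zero.mp h4 with h | h
      · exact absurd (sub_eq_zero.mp h) h01
      · exact h
    have hz0 : z 0 = 0 := by rw [h2, hz1, mul_zero]
    apply hz
    ext i
    fin_cases i
    · simpa using hz0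
    · simpa using hz1
  refine ⟨by omega, f, hcurve, ?_⟩
  apply isVeryFree_of_surj (d := fun _ => d') (fun _ => diagForm_homogeneous co (d' + 1)) hfh
  intro h hh
  -- the spanning statement
  have hM : d' * (e' + 2) < p ^ m := by nlinarith
  have hQM : p ^ m - d' * (e' + 2) = (e' + 2) - (a' + 1) := by
    have h1 : (d' + 1) * (e' + 2) = d' * (e' + 2) + (e' + 2) := by ring
    omega
  have hn : p ^ m ≤ (N + 1) * (p ^ m - d' * (e' + 2)) := by
    rw [hQM]
    have h1 : (d' + 1 + 1) * ((e' + 2) - (a' + 1)) ≤ (N + 1) * ((e' + 2) - (a' + 1)) :=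
      Nat.mul_le_mul_right _ (by omega)
    refine le_trans ?_ h1
    have h2 : a' + 1 ≤ e' + 2 := by nlinarith
    obtain ⟨s, hs⟩ : ∃ s, e' + 2 = (a' + 1) + s := ⟨e' + 2 - (a' + 1), by omega⟩
    rw [hs] at hde hea ⊢
    rw [Nat.add_sub_cancel_left]
    nlinarith
  have hspan := span_forms (p := p) m hP hM hn a' (h := h 0) (by
    have h1 := hh 0
    have h2 : d' * (e' + 2) + e' = p ^ m - 1 + a' := by
      have h3 : (d' + 1) * (e' + 2) = d' * (e' + 2) + (e' + 2) := by ring
      have h4 : 0 < p ^ m := lt_of_le_of_lt (Nat.zero_le _) hM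
      omega
    rwa [h2] at h1)
  obtain ⟨g, hg1, hg2⟩ := hspan
  have hge : p ^ m - 1 - d' * (e' + 2) + a' = e' := by omega
  refine ⟨fun j => C (((d' + 1 : ℕ) : k) * co j * l j ^ d')⁻¹ * g j, ?_, ?_⟩
  · intro j
    have := (hg1 j).C_mul (((d' + 1 : ℕ) : k) * co j * l j ^ d')⁻¹
    rwa [hge] at this
  · intro b
    have hb : b = 0 := Subsingleton.elim _ _
    rw [hb, hg2]
    refine Finset.sum_congr rfl fun j _ => ?_
    rw [pderiv_diagForm, Nat.add_sub_cancel, map_mul, map_pow, bind₁_C_right, bind₁_X_right, hf]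
    simp only
    rw [mul_pow, ← pow_mul, ← map_pow]
    have hne : ((d' + 1 : ℕ) : k) * co j * l j ^ d' ≠ 0 :=
      mul_ne_zero (mul_ne_zero hdk (hco j)) (pow_ne_zero _ (hl0 j))
    have h1 : (C (((d' + 1 : ℕ) : k) * co j) : MvPolynomial (Fin 2) k) * C (l j ^ d') *
        C (((d' + 1 : ℕ) : k) * co j * l j ^ d')⁻¹ = 1 := by
      rw [← map_mul, ← map_mul, mul_inv_cancel₀ hne, map_one]
    calc C (((d' + 1 : ℕ) : k) * co j) * (C (l j ^ d') * ell (P j) ^ ((e' + 2) * d')) *
          (C (((d' + 1 : ℕ) : k) * co j * l j ^ d')⁻¹ * g j)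
        = (C (((d' + 1 : ℕ) : k) * co j) * C (l j ^ d') *
          C (((d' + 1 : ℕ) : k) * co j * l j ^ d')⁻¹) * (ell (P j) ^ (d' * (e' + 2)) * g j) := by
          rw [mul_comm (e' + 2) d']
          ring
      _ = ell (P j) ^ (d' * (e' + 2)) * g j := by rw [h1, one_mul]

end Pool.Agent.Helper49.VF
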