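import Mathlib

/-!
# Forms whose common zeros extend a linear space

For a form `P` and vectors `u l`, the conditions `P(∑ y_l u_l + z w) = P(∑ y_l u_l)` for all
`y, z` follow from the vanishing at `w` of an explicit number of forms of positive degree.
-/

namespace Pool.Agent.Helper49.VF

open MvPolynomial

variable {k : Type*} [Field k] {σ ι : Type*}

/-- The subalgebra of polynomials in `(y_l)_l, z` over `k[x]` whose `y^a z^m` coefficient is
homogeneous of degree `m` in `x`. -/
noncomputable def bigraded (k : Type*) [Field k] (σ ι : Type*) :
    Subalgebra k (MvPolynomial (Option ι) (MvPolynomial σ k)) where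
  carrier := {Φ | ∀ α, (coeff α Φ).IsHomogeneous (α none)}
  mul_mem' := by
    classical
    intro Φ Ψ hΦ hΨ α
    rw [coeff_mul]
    apply IsHomogeneous.sum
    intro p hp
    have : p.1 + p.2 = α := by simpa using hp
    rw [← this]
    exact (hΦ p.1).mul (hΨ p.2)
  add_mem' := by
    intro Φ Ψ hΦ hΨ α
    rw [coeff_add]
    exact (hΦ α).add (hΨ α)
  algebraMap_mem' := by
    classical
    intro r α
    rw [MvPolynomial.algebraMap_apply, coeff_C]
    split_ifs with h
    · rw [← h]
      simpa [algebraMap_eq] using isHomogeneous_C σ r
    · exact isHomogeneous_zero _ _ _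

/-- `P(∑ y_l u_l + z x)` as a polynomial in `y, z` over `k[x]`. -/
noncomputable def expand [Fintype ι] (u : ι → σ → k) (P : MvPolynomial σ k) :
    MvPolynomial (Option ι) (MvPolynomial σ k) :=
  aeval (fun i => ∑ l, C (C (u l i)) * X (some l) + C (X i) * X none) P

lemma expand_mem [Fintype ι] (u : ι → σ → k) (P : MvPolynomial σ k) :
    expand u P ∈ bigraded k σ ι := by
  classical
  unfold expand
  have hgen : ∀ i, (∑ l, C (C (u l i)) * X (some l) + C (X i) * X none :
      MvPolynomial (Option ι) (MvPolynomial σ k)) ∈ bigraded k σ ι := by
    intro i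
    apply Subalgebra.add_mem
    · apply Subalgebra.sum_mem
      intro l _ α
      rw [coeff_C_mul, coeff_X]
      split_ifs with h
      · rw [← h]
        simpa using isHomogeneous_C σ (u l i)
      · simpa using isHomogeneous_zero _ _ _
    · intro α
      rw [coeff_C_mul, coeff_X]
      split_ifs with h
      · rw [← h]
        simpa using isHomogeneous_X k i
      · simpa using isHomogeneous_zero _ _ _
  rw [← Subalgebra.mem_toSubmodule]
  induction P using MvPolynomial.induction_on with
  | C a =>
    rw [aeval_C]
    exact (bigraded k σ ι).algebraMap_mem a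
  | add p q hp hq =>
    rw [map_add]
    exact Submodule.add_mem _ hp hq
  | mul_X p i hp =>
    rw [map_mul, aeval_X]
    exact (bigraded k σ ι).mul_mem hp (hgen i)

lemma expand_homogeneous [Fintype ι] (u : ι → σ → k) {P : MvPolynomial σ k} {n : ℕ}
    (hP : P.IsHomogeneous n) : (expand u P).IsHomogeneous n := by
  have := hP.aeval (S := MvPolynomial σ k)
    (fun i => ∑ l, C (C (u l i)) * X (some l) + C (X i) * X none :
      σ → MvPolynomial (Option ι) (MvPolynomial σ k)) (n := 1) (by
    intro i
    apply IsHomogeneous.add
    · apply IsHomogeneous.sum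
      intro l _
      exact isHomogeneous_C_mul_X _ _
    · exact isHomogeneous_C_mul_X _ _)
  rw [one_mul] at this
  exact this

/-- point of evaluation -/
def pt (y : ι → k) (z : k) : Option ι → k := fun o => o.elim z y

lemma eval_expand [Fintype ι] (u : ι → σ → k) (P : MvPolynomial σ k) (w : σ → k) (y : ι → k)
    (z : k) :
    eval (pt y z) (map (eval w) (expand u P)) = eval (fun i => ∑ l, y l * u l i + z * w i) P := by
  have h : ((eval (pt y z)).comp ((map (eval w)).comp
      ((aeval (fun i => ∑ l, C (C (u l i)) * X (some l) + C (X i) * X none :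
      σ → MvPolynomial (Option ι) (MvPolynomial σ k)) :
        MvPolynomial σ k →ₐ[k] _) : MvPolynomial σ k →+* _))) =
      eval (fun i => ∑ l, y l * u l i + z * w i) := by
    apply MvPolynomial.ringHom_ext
    · intro r
      simp
    · intro i
      simp [pt, mul_comm]
  exact DFunLike.congr_fun h P

/-- **Expansion lemma.** -/
theorem exists_forms [Fintype ι] (u : ι → σ → k) {P : MvPolynomial σ k} {δ : ℕ}
    (hP : P.IsHomogeneous (δ + 1)) :
    ∃ s : Finset (MvPolynomial σ k), s.card ≤ (Fintype.card ι + δ).choose δ ∧
      (∀ q ∈ s, ∃ m : ℕ, 0 < m ∧ q.IsHomogeneous m) ∧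
      ∀ w : σ → k, (∀ q ∈ s, eval w q = 0) → ∀ (y : ι → k) (z : k),
        eval (fun i => ∑ l, y l * u l i + z * w i) P = eval (fun i => ∑ l, y l * u l i) P := by
  classical
  refine ⟨(Finset.univ.finsuppAntidiag δ : Finset (Option ι →₀ ℕ)).image
    (fun α => coeff (α + Finsupp.single none 1) (expand u P)), ?_, ?_, ?_⟩
  · refine Finset.card_image_le.trans (le_of_eq ?_)
    rw [Finset.card_finsuppAntidiag_nat_eq_choose, Finset.card_univ, Fintype.card_option]
    congr 1
    omega
  · intro q hq
    obtain ⟨α, _, rfl⟩ := Finset.mem_image.mp hq
    refine ⟨_, ?_, expand_mem u P _⟩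
    simp
  · intro w hw y z
    have hcoef : ∀ α ∈ (map (eval w) (expand u P)).support, α none = 0 := by
      intro α hα
      by_contra hne
      rw [mem_support_iff, coeff_map] at hα
      have hmem : coeff α (expand u P) ∈
          (Finset.univ.finsuppAntidiag δ : Finset (Option ι →₀ ℕ)).image
          (fun α => coeff (α + Finsupp.single none 1) (expand u P)) := by
        rw [Finset.mem_image]
        refine ⟨α - Finsupp.single none 1, ?_, ?_⟩
        · rw [Finset.mem_finsuppAntidiag]
          refine ⟨?_, Finset.subset_univ _⟩
          have hdeg : α.degree = δ + 1 := by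
            by_contra hd
            exact hα (by rw [(expand_homogeneous u hP).coeff_eq_zero hd, map_zero])
          rw [Finsupp.degree_eq_sum] at hdeg
          rw [Fintype.sum_option] at hdeg ⊢
          simp only [Finsupp.coe_tsub, Pi.sub_apply, Finsupp.single_eq_same]
          have h2 : ∀ i : ι, α (some i) - (Finsupp.single none 1 : Option ι →₀ ℕ) (some i)
              = α (some i) := by
            intro i
            rw [Finsupp.single_eq_of_ne (by simp)]
            simp
          simp only [h2]
          omega
        · congr 1
          apply tsub_add_cancel_of_le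
          rw [Finsupp.single_le_iff]
          omega
      exact hα (hw _ hmem)
    have h0 : ∀ z : k, eval (pt y z) (map (eval w) (expand u P)) =
        eval (pt y 0) (map (eval w) (expand u P)) := by
      intro z
      rw [eval_eq, eval_eq]
      refine Finset.sum_congr rfl fun α hα => ?_
      congr 1
      refine Finset.prod_congr rfl fun i hi => ?_
      cases i with
      | none =>
        rw [Finsupp.mem_support_iff] at hi
        exact absurd (hcoef α hα) hi
      | some i => rfl
    have h1 := eval_expand u P w y z
    have h2 := eval_expand u P w y 0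
    rw [← h1, h0 z, h2]
    simp

end Pool.Agent.Helper49.VF
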