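import Pool.Agent.Helper49.VF.Leading

/-!
# Leading terms of a form evaluated at a perturbed point
-/

namespace Pool.Agent.Helper49.VF

open MvPolynomial

variable {L K : Type*} [Field L] [Field K] [Algebra L K] {σ : Type*}

/-- All coefficients of `g` lie in `VV L x j`. -/
def CF (L : Type*) {K : Type*} [Field L] [Field K] [Algebra L K] {σ : Type*} (x : σ → K) (j : ℕ)
    (g : MvPolynomial (Fin 2) K) : Prop := ∀ α, coeff α g ∈ VV L x j

variable {x : σ → K}

lemma CF.mono {i j : ℕ} (hij : i ≤ j) {g : MvPolynomial (Fin 2) K} (h : CF L x i g) :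
    CF L x j g := fun α => VV_mono x hij (h α)

lemma CF.add {j : ℕ} {g h : MvPolynomial (Fin 2) K} (hg : CF L x j g) (hh : CF L x j h) :
    CF L x j (g + h) := by
  intro α
  rw [coeff_add]
  exact Submodule.add_mem _ (hg α) (hh α)

lemma CF.sum {j : ℕ} {ι : Type*} {s : Finset ι} {g : ι → MvPolynomial (Fin 2) K}
    (hg : ∀ i ∈ s, CF L x j (g i)) : CF L x j (∑ i ∈ s, g i) := by
  intro α
  rw [coeff_sum]
  exact Submodule.sum_mem _ fun i hi => hg i hi α

lemma CF.mul {i j : ℕ} {g h : MvPolynomial (Fin 2) K} (hg : CF L x i g) (hh : CF L x j h) :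
    CF L x (i + j) (g * h) := by
  classical
  intro α
  rw [coeff_mul]
  exact Submodule.sum_mem _ fun p _ => VV_mul (hg p.1) (hh p.2)

lemma CF_zero (j : ℕ) : CF L x j 0 := by
  intro α
  rw [coeff_zero]
  exact Submodule.zero_mem _

lemma CF_C {j : ℕ} {a : K} (ha : a ∈ VV L x j) : CF L x j (C a) := by
  classical
  intro α
  rw [coeff_C]
  split_ifs
  · exact ha
  · exact Submodule.zero_mem _

lemma CF_monomial {j : ℕ} {a : K} (ha : a ∈ VV L x j) (β : Fin 2 →₀ ℕ) :
    CF L x j (monomial β a) := by
  classical
  intro α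
  rw [coeff_monomial]
  split_ifs
  · exact ha
  · exact Submodule.zero_mem _

lemma VV_one : (1 : K) ∈ VV L x 0 := by
  have := VV_algebraMap x (1 : L)
  rwa [map_one] at this

lemma CF_algebraMap (c : L) : CF L x 0 (C (algebraMap L K c)) := CF_C (VV_algebraMap x c)

variable {k : Type*} [Field k] [Algebra k L] [Algebra k K] [IsScalarTower k L K]

lemma CF_monomials {τ : Type*} {f g : τ → MvPolynomial (Fin 2) K}
    (hf : ∀ m, CF L x 1 (f m)) (hg : ∀ m, CF L x 1 (g m)) (hfg : ∀ m, CF L x 0 (f m - g m)) :
    ∀ (n : ℕ) (α : τ →₀ ℕ), α.degree = n →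
      CF L x n (aeval f (monomial α (1 : k))) ∧ CF L x n (aeval g (monomial α (1 : k))) ∧
      CF L x (n - 1) (aeval f (monomial α (1 : k)) - aeval g (monomial α (1 : k))) := by
  classical
  intro n
  induction n with
  | zero =>
    intro α hα
    rw [Finsupp.degree_eq_zero_iff] at hα
    subst hα
    have h1 : (monomial (0 : τ →₀ ℕ) (1 : k)) = 1 := rfl
    rw [h1, map_one, map_one, sub_self]
    have h2 : CF L x 0 (1 : MvPolynomial (Fin 2) K) := CF_C (VV_one)
    exact ⟨h2, h2, CF_zero _⟩
  | succ n ih =>
    intro α hα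
    have hne : α ≠ 0 := by
      rintro rfl
      simp at hα
    obtain ⟨m, hm⟩ := Finsupp.ne_iff.mp hne
    have hm' : 0 < α m := Nat.pos_of_ne_zero hm
    have hle : Finsupp.single m 1 ≤ α := by
      rw [Finsupp.single_le_iff]
      exact hm'
    have hd : (α - Finsupp.single m 1).degree = n := by
      have : (α - Finsupp.single m 1).degree + 1 = α.degree := by
        conv_rhs => rw [← tsub_add_cancel_of_le hle]
        simp
      omega
    obtain ⟨h1, h2, h3⟩ := ih _ hd
    have hsplit : monomial α (1 : k) = X m * monomial (α - Finsupp.single m 1) 1 := by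
      rw [X, monomial_mul, one_mul, add_tsub_cancel_of_le hle]
    rw [hsplit, map_mul, map_mul, aeval_X, aeval_X]
    refine ⟨?_, ?_, ?_⟩
    · rw [add_comm]
      exact (hf m).mul h1
    · rw [add_comm]
      exact (hg m).mul h2
    · have hid : f m * aeval f (monomial (α - Finsupp.single m 1) (1 : k)) -
          g m * aeval g (monomial (α - Finsupp.single m 1) (1 : k)) =
          (f m - g m) * aeval f (monomial (α - Finsupp.single m 1) (1 : k)) +
          g m * (aeval f (monomial (α - Finsupp.single m 1) (1 : k)) -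
            aeval g (monomial (α - Finsupp.single m 1) (1 : k))) := by ring
      rw [hid, Nat.add_sub_cancel]
      apply CF.add
      · have := (hfg m).mul h1
        rwa [zero_add] at this
      · rcases Nat.eq_zero_or_pos n with hn | hn
        · subst hn
          have h0 : α - Finsupp.single m 1 = 0 := by
            rwa [Finsupp.degree_eq_zero_iff] at hd
          rw [h0]
          have h1 : (monomial (0 : τ →₀ ℕ) (1 : k)) = 1 := rfl
          rw [h1, map_one, map_one, sub_self, mul_zero]
          exact CF_zero _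
        · have := (hg m).mul h3
          have h4 : 1 + (n - 1) = n := by omega
          rwa [h4] at this

lemma CF_aeval {τ : Type*} {f g : τ → MvPolynomial (Fin 2) K}
    (hf : ∀ m, CF L x 1 (f m)) (hg : ∀ m, CF L x 1 (g m)) (hfg : ∀ m, CF L x 0 (f m - g m))
    {G : MvPolynomial τ k} {n : ℕ} (hG : G.IsHomogeneous n) :
    CF L x n (aeval f G) ∧ CF L x (n - 1) (aeval f G - aeval g G) := by
  have hmon : ∀ α (c : k), (monomial α c : MvPolynomial τ k) = C c * monomial α 1 := by
    intro α c
    rw [C_mul_monomial, mul_one]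
  have hc : ∀ (c : k), CF L x 0 (algebraMap k (MvPolynomial (Fin 2) K) c) := by
    intro c
    have := CF_algebraMap (K := K) (x := x) (algebraMap k L c)
    rwa [← IsScalarTower.algebraMap_apply k L K] at this
  constructor
  · rw [G.as_sum, map_sum]
    apply CF.sum
    intro α hα
    have hd : α.degree = n := by
      by_contra h
      exact (mem_support_iff.mp hα) (hG.coeff_eq_zero h)
    rw [hmon, map_mul, aeval_C]
    have := (hc (coeff α G)).mul (CF_monomials (k := k) hf hg hfg n α hd).1
    rwa [zero_add] at this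
  · rw [G.as_sum, map_sum, map_sum, ← Finset.sum_sub_distrib]
    apply CF.sum
    intro α hα
    have hd : α.degree = n := by
      by_contra h
      exact (mem_support_iff.mp hα) (hG.coeff_eq_zero h)
    rw [hmon, map_mul, map_mul, aeval_C, aeval_C, ← mul_sub]
    have := (hc (coeff α G)).mul (CF_monomials (k := k) hf hg hfg n α hd).2.2
    rwa [zero_add] at this

end Pool.Agent.Helper49.VF
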