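import Pool.Agent.Helper49.VF.Defs
import Pool.Agent.Helper49.VF.CommonZero
import Pool.Agent.Helper49.VF.Expansion
import Pool.Agent.Helper49.VF.Criterion

/-!
# Good flags of points in a linear space contained in a complete intersection
-/

namespace Pool.Agent.Helper49.VF

open MvPolynomial

variable {k : Type*} [Field k] {σ : Type*} [Fintype σ]

/-- Directional derivative. -/
noncomputable def dirD (v : σ → k) (P : MvPolynomial σ k) : MvPolynomial σ k :=
  ∑ m, C (v m) * pderiv m P

lemma dirD_homogeneous (v : σ → k) {P : MvPolynomial σ k} {n : ℕ} (hP : P.IsHomogeneous (n + 1)) :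
    (dirD v P).IsHomogeneous n := by
  apply IsHomogeneous.sum
  intro m _
  have : (pderiv m P).IsHomogeneous n := by simpa using hP.pderiv (i := m)
  exact this.C_mul _

lemma exists_dual {c : ℕ} (g : Fin c → σ → k) (hg : LinearIndependent k g) :
    ∃ v : Fin c → σ → k, ∀ a b, ∑ m, v a m * g b m = if a = b then 1 else 0 := by
  classical
  obtain ⟨φ, hφ⟩ := LinearMap.exists_leftInverse_of_injective
    (Finsupp.linearCombination k g) (LinearMap.ker_eq_bot.mpr hg)
  refine ⟨fun a m => φ (Pi.single m 1) a, fun a b => ?_⟩
  have h1 : φ (g b) = Finsupp.single b 1 := by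
    have := LinearMap.congr_fun hφ (Finsupp.single b 1)
    simpa using this
  have h2 : g b = ∑ m, g b m • (Pi.single m (1 : k) : σ → k) := by
    conv_lhs => rw [← Finset.univ_sum_single (g b)]
    refine Finset.sum_congr rfl fun m _ => ?_
    rw [← Pi.single_smul, smul_eq_mul, mul_one]
  have h3 : (φ (g b)) a = ∑ m, φ (Pi.single m 1) a * g b m := by
    conv_lhs => rw [h2, map_sum]
    simp [Finsupp.finsetSum_apply, mul_comm]
  rw [← h3, h1, Finsupp.single_apply]
  simp only [eq_comm]

/-- The data of the first `j` vectors of the flag. -/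
structure IsFlag {c : ℕ} (F : Fin c → MvPolynomial σ k) (e : Fin c → ℕ) (j : ℕ)
    (w : ℕ → σ → k) (v : ℕ → Fin c → σ → k) : Prop where
  zero : ∀ (y : ℕ → k) (b : Fin c),
    eval (fun m => ∑ l ∈ Finset.range j, y l * w l m) (F b) = 0
  grad : ∀ i < j, ∀ (a b : Fin c) (y : ℕ → k),
    eval (fun m => ∑ l ∈ Finset.Ico i j, y l * w l m) (dirD (v i a) (F b)) =
      if a = b then y i ^ (e b + 1) else 0

lemma hockey (e j : ℕ) :
    ∑ i ∈ Finset.range j, (j - i + e).choose e + 1 = (j + (e + 1)).choose (e + 1) := by
  induction j with
  | zero => simp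
  | succ j ih =>
    rw [Finset.sum_range_succ']
    have h1 : ∀ i ∈ Finset.range j, (j + 1 - (i + 1) + e).choose e = (j - i + e).choose e := by
      intro i _
      congr 2
      omega
    rw [Finset.sum_congr rfl h1]
    have h2 : (j + 1 + (e + 1)).choose (e + 1) =
        (j + (e + 1)).choose (e + 1) + (j + (e + 1)).choose e := by
      have : j + 1 + (e + 1) = (j + (e + 1)) + 1 := by ring
      rw [this, Nat.choose_succ_succ, add_comm]
    rw [h2, ← ih]
    have : j + 1 - 0 + e = j + (e + 1) := by omega
    rw [this]
    ring

theorem exists_flag [IsAlgClosed k] {c : ℕ} {F : Fin c → MvPolynomial σ k} {e : Fin c → ℕ}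
    (hF : ∀ b, (F b).IsHomogeneous (e b + 2))
    (hsm : ∀ z : σ → k, z ≠ 0 → (∀ b, eval z (F b) = 0) →
      LinearIndependent k (fun (b : Fin c) (i : σ) => eval z (pderiv i (F b))))
    (D : ℕ) (hN : ∑ b, ((c + 1) * (D + (e b + 1)).choose (e b + 1) - c) < Fintype.card σ)
    (j : ℕ) (hj : j ≤ D + 1) :
    ∃ (w : ℕ → σ → k) (v : ℕ → Fin c → σ → k), IsFlag F e j w v := by
  classical
  induction j with
  | zero =>
    refine ⟨0, 0, ⟨fun y b => ?_, fun i hi => absurd hi (Nat.not_lt_zero _)⟩⟩
    simp only [Finset.range_zero, Finset.sum_empty]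
    have h := (hF b).coeff_eq_zero (d := 0) (by simp)
    have h0 := MvPolynomial.eval_zero' (R := k) (σ := σ)
    change eval (fun _ : σ => (0 : k)) (F b) = 0
    rw [h0, constantCoeff_eq, h]
  | succ j ih =>
    obtain ⟨w, v, hfl⟩ := ih (by omega)
    -- the forms
    have hs := fun b => exists_forms (fun (l : Finset.range j) => w l) (hF b)
    choose s hs1 hs2 hs3 using hs
    have ht := fun (i : ℕ) (a b : Fin c) =>
      exists_forms (fun (l : Finset.Ico i j) => w l) (dirD_homogeneous (v i a) (hF b))
    choose t ht1 ht2 ht3 using ht
    set S : Finset (MvPolynomial σ k) := Finset.univ.biUnion s ∪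
      (Finset.range j ×ˢ (Finset.univ : Finset (Fin c × Fin c))).biUnion
        (fun x => t x.1 x.2.1 x.2.2) with hS
    have hcard : S.card < Fintype.card σ := by
      refine lt_of_le_of_lt ?_ hN
      refine (Finset.card_union_le _ _).trans ?_
      have h1 : (Finset.univ.biUnion s).card ≤ ∑ b, (j + (e b + 1)).choose (e b + 1) := by
        refine Finset.card_biUnion_le.trans (Finset.sum_le_sum fun b _ => ?_)
        have := hs1 b
        simpa using this
      have h2 : ((Finset.range j ×ˢ (Finset.univ : Finset (Fin c × Fin c))).biUnion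
          (fun x => t x.1 x.2.1 x.2.2)).card ≤
          ∑ b, c * ((j + (e b + 1)).choose (e b + 1) - 1) := by
        refine Finset.card_biUnion_le.trans ?_
        rw [Finset.sum_product]
        simp_rw [Fintype.sum_prod_type]
        have h3 : ∀ i ∈ Finset.range j, ∑ a : Fin c, ∑ b : Fin c, (t i a b).card ≤
            ∑ b, c * (j - i + e b).choose (e b) := by
          intro i _
          rw [Finset.sum_comm]
          refine Finset.sum_le_sum fun b _ => ?_
          refine (Finset.sum_le_card_nsmul Finset.univ _ ((j - i + e b).choose (e b))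
            fun a _ => ?_).trans (le_of_eq ?_)
          · have := ht1 i a b
            simpa using this
          · simp
        refine (Finset.sum_le_sum h3).trans (le_of_eq ?_)
        rw [Finset.sum_comm]
        refine Finset.sum_congr rfl fun b _ => ?_
        rw [← Finset.mul_sum, ← hockey (e b) j]
        simp
      refine (Nat.add_le_add h1 h2).trans ?_
      rw [← Finset.sum_add_distrib]
      refine Finset.sum_le_sum fun b _ => ?_
      have hmono : (j + (e b + 1)).choose (e b + 1) ≤ (D + (e b + 1)).choose (e b + 1) :=
        Nat.choose_le_choose _ (by omega)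
      have hpos : 1 ≤ (j + (e b + 1)).choose (e b + 1) := Nat.choose_pos (by omega)
      have : (j + (e b + 1)).choose (e b + 1) + c * ((j + (e b + 1)).choose (e b + 1) - 1)
          = (c + 1) * (j + (e b + 1)).choose (e b + 1) - c := by
        rw [Nat.mul_sub, mul_one, add_mul, one_mul]
        have : c ≤ c * (j + (e b + 1)).choose (e b + 1) := Nat.le_mul_of_pos_right c hpos
        omega
      rw [this]
      exact Nat.sub_le_sub_right (Nat.mul_le_mul_left _ hmono) _
    obtain ⟨x, hx0, hx⟩ := exists_common_zero S (by
      intro q hq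
      rw [hS, Finset.mem_union, Finset.mem_biUnion, Finset.mem_biUnion] at hq
      rcases hq with ⟨b, _, hb⟩ | ⟨y, _, hy⟩
      · exact hs2 b q hb
      · exact ht2 _ _ _ q hy) hcard
    have hxs : ∀ b, ∀ q ∈ s b, eval x q = 0 := by
      intro b q hq
      apply hx
      rw [hS, Finset.mem_union, Finset.mem_biUnion]
      exact Or.inl ⟨b, Finset.mem_univ _, hq⟩
    have hxt : ∀ i < j, ∀ a b, ∀ q ∈ t i a b, eval x q = 0 := by
      intro i hi a b q hq
      apply hx
      rw [hS, Finset.mem_union, Finset.mem_biUnion, Finset.mem_biUnion]
      exact Or.inr ⟨(i, a, b), by simp [hi], hq⟩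
    -- values of F
    have hFz : ∀ (y : ℕ → k) (z : k) b,
        eval (fun m => ∑ l ∈ Finset.range j, y l * w l m + z * x m) (F b) = 0 := by
      intro y z b
      have h1 := hs3 b x (hxs b) (fun l => y l) z
      have h2 : ∀ m, ∑ l : Finset.range j, y l * w l m = ∑ l ∈ Finset.range j, y l * w l m :=
        fun m => Finset.sum_coe_sort (Finset.range j) (fun l => y l * w l m)
      simp only [h2] at h1
      rw [h1]
      exact hfl.zero y b
    have hxF : ∀ b, eval x (F b) = 0 := by
      intro b
      have := hFz 0 1 b
      simpa using this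
    obtain ⟨g, hg⟩ := exists_dual _ (hsm x hx0 hxF)
    refine ⟨Function.update w j x, Function.update v j g, ⟨fun y b => ?_, fun i hi a b y => ?_⟩⟩
    · have h1 : ∀ m, ∑ l ∈ Finset.range (j + 1), y l * Function.update w j x l m =
          ∑ l ∈ Finset.range j, y l * w l m + y j * x m := by
        intro m
        rw [Finset.sum_range_succ, Function.update_self]
        congr 1
        refine Finset.sum_congr rfl fun l hl => ?_
        rw [Function.update_of_ne (by simp at hl; omega)]
      simp only [h1]
      exact hFz y (y j) b
    · by_cases hij : i = j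
      · subst hij
        rw [Function.update_self]
        have h1 : ∀ m, ∑ l ∈ Finset.Ico i (i + 1), y l * Function.update w i x l m =
            y i * x m := by
          intro m
          simp
        simp only [h1]
        have h2 := aeval_scale (A := k) (dirD_homogeneous (g a) (hF b)) (y i) x
        simp only [aeval_eq_eval] at h2
        have h3 : eval x (dirD (g a) (F b)) = if a = b then 1 else 0 := by
          rw [← hg a b]
          simp [dirD]
        have h4 : eval (fun m => y i * x m) (dirD (g a) (F b)) =
            y i ^ (e b + 1) * eval x (dirD (g a) (F b)) := by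
          simpa using h2
        rw [h4, h3]
        split_ifs <;> simp
      · have hi' : i < j := by omega
        rw [Function.update_of_ne hij]
        have h1 : ∀ m, ∑ l ∈ Finset.Ico i (j + 1), y l * Function.update w j x l m =
            ∑ l ∈ Finset.Ico i j, y l * w l m + y j * x m := by
          intro m
          rw [Finset.sum_Ico_succ_top (by omega), Function.update_self]
          congr 1
          refine Finset.sum_congr rfl fun l hl => ?_
          rw [Function.update_of_ne (by simp at hl; omega)]
        simp only [h1]
        have h2 := ht3 i a b x (hxt i hi' a b) (fun l => y l) (y j)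
        have h3 : ∀ m, ∑ l : Finset.Ico i j, y l * w l m = ∑ l ∈ Finset.Ico i j, y l * w l m :=
          fun m => Finset.sum_coe_sort (Finset.Ico i j) (fun l => y l * w l m)
        simp only [h3] at h2
        rw [h2]
        exact hfl.grad i hi' a b y

end Pool.Agent.Helper49.VF
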