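import Mathlib

/-!
# Height and transcendence degree in polynomial rings
-/

namespace Pool.Agent.Helper49.VF

universe u

variable {k : Type u} [Field k]

section

variable {R : Type u} [CommRing R]

lemma comap_map_C (p : Ideal R) :
    (p.map Polynomial.C).comap Polynomial.C = p := by
  ext a
  rw [Ideal.mem_comap, Ideal.mem_map_C_iff]
  constructor
  · intro h
    simpa using h 0
  · intro h n
    rw [Polynomial.coeff_C]
    split_ifs
    · exact h
    · exact p.zero_mem

variable [IsNoetherianRing R]

lemma height_ge_of_comap (Q : Ideal (Polynomial R)) [Q.IsPrime] :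
    (Q.comap Polynomial.C).height ≤ Q.height := by
  have : Q.LiesOver (Q.comap Polynomial.C) := ⟨rfl⟩
  rw [Ideal.height_eq_height_add_of_liesOver_of_hasGoingDown (Q.comap Polynomial.C) Q]
  exact le_self_add

lemma height_ge_of_lt (Q : Ideal (Polynomial R)) [Q.IsPrime]
    (h : (Q.comap Polynomial.C).map Polynomial.C ≠ Q) :
    (Q.comap Polynomial.C).height + 1 ≤ Q.height := by
  have hp : (Q.comap Polynomial.C).IsPrime := inferInstance
  have hpm : ((Q.comap Polynomial.C).map Polynomial.C).IsPrime := Ideal.isPrime_map_C_of_isPrime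
  have hle : (Q.comap Polynomial.C).map Polynomial.C ≤ Q := Ideal.map_comap_le
  have hlt : (Q.comap Polynomial.C).map Polynomial.C < Q := lt_of_le_of_ne hle h
  have h1 : (Q.comap Polynomial.C).height ≤ ((Q.comap Polynomial.C).map Polynomial.C).height := by
    have := height_ge_of_comap ((Q.comap Polynomial.C).map Polynomial.C)
    rw [comap_map_C] at this
    exact this
  exact (add_le_add_left h1 1).trans (Ideal.height_add_one_le_of_lt_of_isPrime hlt)

end

lemma trdeg_quotient_map_C {R : Type u} [CommRing R] [Algebra k R] (p : Ideal R) [p.IsPrime] :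
    Algebra.trdeg k (R ⧸ p) + 1 ≤
      Algebra.trdeg k (Polynomial R ⧸ p.map (Polynomial.C : R →+* Polynomial R)) := by
  let e : Polynomial (R ⧸ p) ≃ₐ[k] (Polynomial R ⧸ p.map (Polynomial.C : R →+* Polynomial R)) :=
    AlgEquiv.ofRingEquiv (f := p.polynomialQuotientEquivQuotientPolynomial) (by
      intro r
      apply p.polynomialQuotientEquivQuotientPolynomial.symm.injective
      rw [RingEquiv.symm_apply_apply]
      have h1 : algebraMap k (Polynomial R ⧸ p.map (Polynomial.C : R →+* Polynomial R)) r =
          Ideal.Quotient.mk _ (Polynomial.C (algebraMap k R r)) := rfl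
      rw [h1, Ideal.polynomialQuotientEquivQuotientPolynomial_symm_mk, Polynomial.map_C]
      rfl)
  rw [← e.trdeg_eq, ← trdeg_add_eq k (R ⧸ p) (A := Polynomial (R ⧸ p)),
    Polynomial.trdeg_of_isDomain]

/-- For a prime `P` of a polynomial ring in `m` variables, `m ≤ ht P + trdeg (k[x]/P)`. -/
theorem card_le_height_add (m : ℕ) : ∀ (P : Ideal (MvPolynomial (Fin m) k)) [P.IsPrime] (t : ℕ),
    Algebra.trdeg k (MvPolynomial (Fin m) k ⧸ P) ≤ t → (m : ℕ∞) ≤ P.height + t := by
  induction m with
  | zero =>
    intro P _ t _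
    simp
  | succ m ih =>
    intro P hP t ht
    let e : MvPolynomial (Fin (m + 1)) k ≃ₐ[k] Polynomial (MvPolynomial (Fin m) k) :=
      MvPolynomial.finSuccEquiv k m
    set Q : Ideal (Polynomial (MvPolynomial (Fin m) k)) := P.map e.toRingEquiv with hQ
    have hQp : Q.IsPrime := Ideal.map_isPrime_of_equiv e.toRingEquiv
    have hQh : Q.height = P.height := RingEquiv.height_map _ _
    have hQt : Algebra.trdeg k (Polynomial (MvPolynomial (Fin m) k) ⧸ Q) ≤ t := by
      have e2 : (MvPolynomial (Fin (m + 1)) k ⧸ P) ≃ₐ[k]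
          (Polynomial (MvPolynomial (Fin m) k) ⧸ Q) :=
        Ideal.quotientEquivAlg P Q e rfl
      rw [← e2.trdeg_eq]
      exact ht
    set p : Ideal (MvPolynomial (Fin m) k) := Q.comap Polynomial.C with hp
    have hpp : p.IsPrime := inferInstance
    by_cases hcase : p.map Polynomial.C = Q
    · have h1 := trdeg_quotient_map_C (k := k) p
      rw [hcase] at h1
      have h2 : Algebra.trdeg k (MvPolynomial (Fin m) k ⧸ p) + 1 ≤ t := h1.trans hQt
      obtain ⟨t', rfl⟩ : ∃ t', t = t' + 1 := by
        rcases t with _ | t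
        · exfalso
          rw [Nat.cast_zero] at h2
          have h3 : (1 : Cardinal) ≤ 0 := le_trans (le_add_self) h2
          exact absurd h3 (not_le.mpr zero_lt_one)
        · exact ⟨t, rfl⟩
      have h3 : Algebra.trdeg k (MvPolynomial (Fin m) k ⧸ p) ≤ t' := by
        rw [Nat.cast_add, Nat.cast_one] at h2
        exact (Cardinal.add_one_le_add_one_iff).mp h2
      have h4 := ih p t' h3
      have h5 : p.height ≤ Q.height := height_ge_of_comap Q
      rw [← hQh]
      push_cast
      rw [← add_assoc]
      exact add_le_add_left (h4.trans (add_le_add_left h5 _)) 1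
    · have hinj : Algebra.trdeg k (MvPolynomial (Fin m) k ⧸ p) ≤
          Algebra.trdeg k (Polynomial (MvPolynomial (Fin m) k) ⧸ Q) := by
        let g : MvPolynomial (Fin m) k →ₐ[k] Polynomial (MvPolynomial (Fin m) k) :=
          IsScalarTower.toAlgHom k (MvPolynomial (Fin m) k) (Polynomial (MvPolynomial (Fin m) k))
        have hpg : p = Q.comap g := rfl
        let g' : (MvPolynomial (Fin m) k ⧸ p) →ₐ[k] (Polynomial (MvPolynomial (Fin m) k) ⧸ Q) :=
          Ideal.quotientMapₐ Q g (le_of_eq hpg)
        apply trdeg_le_of_injective g'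
        exact Ideal.quotientMap_injective' (H := le_of_eq hpg) (le_of_eq hpg.symm)
      have h4 := ih p t (hinj.trans hQt)
      have h5 : p.height + 1 ≤ Q.height := height_ge_of_lt Q hcase
      rw [← hQh]
      push_cast
      calc (m : ℕ∞) + 1 ≤ (p.height + t) + 1 := add_le_add_left h4 1
        _ = (p.height + 1) + t := by ring
        _ ≤ Q.height + t := add_le_add_left h5 _

theorem card_le_height_add' {σ : Type} [Fintype σ] (P : Ideal (MvPolynomial σ k)) [P.IsPrime]
    (t : ℕ) (ht : Algebra.trdeg k (MvPolynomial σ k ⧸ P) ≤ t) :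
    (Fintype.card σ : ℕ∞) ≤ P.height + t := by
  let e : MvPolynomial σ k ≃ₐ[k] MvPolynomial (Fin (Fintype.card σ)) k :=
    MvPolynomial.renameEquiv k (Fintype.equivFin σ)
  have hQp : (P.map e.toRingEquiv).IsPrime := Ideal.map_isPrime_of_equiv e.toRingEquiv
  have hQh : (P.map e.toRingEquiv).height = P.height := RingEquiv.height_map _ _
  rw [← hQh]
  apply card_le_height_add
  have e2 : (MvPolynomial σ k ⧸ P) ≃ₐ[k]
      (MvPolynomial (Fin (Fintype.card σ)) k ⧸ P.map e.toRingEquiv) :=
    Ideal.quotientEquivAlg P (P.map e.toRingEquiv) e rfl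
  rw [← e2.trdeg_eq]
  exact ht

end Pool.Agent.Helper49.VF
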