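import Pool.Agent.Helper49.VF.Defs

/-!
# Transfer of solutions by the Nullstellensatz; smoothness over extension fields
-/

namespace Pool.Agent.Helper49.VF

open MvPolynomial

variable {k : Type*} [Field k] [IsAlgClosed k]

/-- A system of polynomial equations over `k` solvable in a nontrivial `k`-algebra is solvable
in `k`. -/
theorem exists_point {τ : Type*} [Finite τ] (S : Set (MvPolynomial τ k)) {B : Type*} [CommRing B]
    [Nontrivial B] [Algebra k B] (y : τ → B) (hy : ∀ p ∈ S, aeval y p = 0) :
    ∃ z : τ → k, ∀ p ∈ S, aeval z p = 0 := by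
  have hne : Ideal.span S ≠ ⊤ := by
    intro h
    have h1 : (1 : MvPolynomial τ k) ∈ Ideal.span S := by
      rw [h]
      trivial
    have h2 : Ideal.span S ≤ RingHom.ker (aeval y : MvPolynomial τ k →ₐ[k] B) := by
      rw [Ideal.span_le]
      intro p hp
      exact hy p hp
    have h3 := h2 h1
    rw [RingHom.mem_ker, map_one] at h3
    exact one_ne_zero h3
  obtain ⟨M, hM, hle⟩ := Ideal.exists_le_maximal _ hne
  obtain ⟨z, rfl⟩ := isMaximal_iff_eq_vanishingIdeal_singleton.mp hM
  refine ⟨z, fun p hp => ?_⟩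
  have := hle (Ideal.subset_span hp)
  rwa [mem_vanishingIdeal_singleton_iff] at this

/-- The Jacobian criterion of smoothness persists over extension fields. -/
theorem smooth_extend {N c : ℕ} {F : Fin c → MvPolynomial (Fin (N + 1)) k} (hsm : IsSmoothCI F)
    {Ω : Type*} [Field Ω] [Algebra k Ω] (z : Fin (N + 1) → Ω) (a : Fin c → Ω) (ha : a ≠ 0)
    (hF : ∀ b, aeval z (F b) = 0) (hG : ∀ m, ∑ b, a b * aeval z (pderiv m (F b)) = 0) :
    z = 0 := by
  by_contra hz
  obtain ⟨m0, hm0⟩ : ∃ m, z m ≠ 0 := by
    by_contra h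
    push Not at h
    exact hz (funext h)
  obtain ⟨b0, hb0⟩ : ∃ b, a b ≠ 0 := by
    by_contra h
    push Not at h
    exact ha (funext h)
  let ι1 : Fin (N + 1) → Option (Fin (N + 1) ⊕ Fin c) := fun m => some (Sum.inl m)
  let S : Set (MvPolynomial (Option (Fin (N + 1) ⊕ Fin c)) k) :=
    (Set.range fun b => rename ι1 (F b)) ∪
    (Set.range fun m => ∑ b, X (some (Sum.inr b)) * rename ι1 (pderiv m (F b))) ∪
    {X none * X (some (Sum.inl m0)) * X (some (Sum.inr b0)) - 1}
  let y : Option (Fin (N + 1) ⊕ Fin c) → Ω := fun o =>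
    o.elim ((z m0)⁻¹ * (a b0)⁻¹) (Sum.elim z a)
  obtain ⟨x, hx⟩ := exists_point S y (by
    rintro p ((⟨b, rfl⟩ | ⟨m, rfl⟩) | hp)
    · simp only [aeval_rename]
      exact hF b
    · simp only [map_sum, map_mul, aeval_rename, aeval_X]
      exact hG m
    · rw [Set.mem_singleton_iff] at hp
      rw [hp]
      simp only [map_sub, map_mul, aeval_X, map_one]
      simp only [y, Option.elim, Sum.elim_inl, Sum.elim_inr]
      field_simp
      ring)
  have h1 : ∀ b, eval (fun m => x (some (Sum.inl m))) (F b) = 0 := by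
    intro b
    have := hx _ (Or.inl (Or.inl ⟨b, rfl⟩))
    simp only [aeval_rename] at this
    rw [aeval_eq_eval] at this
    exact this
  have h2 : ∀ m, ∑ b, x (some (Sum.inr b)) *
      eval (fun m => x (some (Sum.inl m))) (pderiv m (F b)) = 0 := by
    intro m
    have := hx _ (Or.inl (Or.inr ⟨m, rfl⟩))
    simp only [map_sum, map_mul, aeval_rename, aeval_X, aeval_eq_eval] at this
    exact this
  have h3 : x none * x (some (Sum.inl m0)) * x (some (Sum.inr b0)) = 1 := by
    have := hx _ (Or.inr rfl)
    simp only [map_sub, map_mul, aeval_X, map_one] at this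
    exact sub_eq_zero.mp this
  have h4 : (fun m => x (some (Sum.inl m))) ≠ (0 : Fin (N + 1) → k) := by
    intro h
    have := congrFun h m0
    simp only [Pi.zero_apply] at this
    rw [this] at h3
    simp at h3
  have h5 := hsm _ h4 h1
  rw [Fintype.linearIndependent_iff] at h5
  have h6 := h5 (fun b => x (some (Sum.inr b))) (by
    ext m
    simpa using h2 m) b0
  rw [h6] at h3
  simp at h3

end Pool.Agent.Helper49.VF
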