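import Pool.Agent.Helper49.VF.Curve
import Pool.Agent.Helper49.VF.HeightTrdeg
import Pool.Agent.Helper49.VF.Filtration
import Pool.Agent.Helper49.VF.Transfer

/-!
# Algebraicity of the generic bad curve
-/

namespace Pool.Agent.Helper49.VF

open MvPolynomial

section

variable {L K : Type*} [Field L] [Field K] [Algebra L K]
variable {k : Type*} [Field k] [Algebra k L] [Algebra k K] [IsScalarTower k L K] {N D c : ℕ}

/-- The leading part of a form evaluated on a curve. -/
lemma leading_curve (w : Fin (D + 1) → Fin (N + 1) → K) (i : Fin (D + 1))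
    (hw : ∀ l, l ≠ i → ∀ m, ∃ a : L, algebraMap L K a = w l m)
    {G : MvPolynomial (Fin (N + 1)) k} {n : ℕ} (hG : G.IsHomogeneous n) :
    CF L (w i) n (aeval (curve D w) G) ∧
    CF L (w i) (n - 1) (aeval (curve D w) G -
      C (aeval (w i) G) * (X 0 ^ ((i : ℕ) * n) * X 1 ^ ((D - i) * n))) := by
  classical
  set g : Fin (N + 1) → MvPolynomial (Fin 2) K := fun m =>
    (X 0 ^ (i : ℕ) * X 1 ^ (D - i)) * C (w i m) with hg
  have hmon : ∀ (l : ℕ) (a : K) (j : ℕ), a ∈ VV L (w i) j →
      CF L (w i) j (C a * (X 0 ^ l * X 1 ^ (D - l))) := by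
    intro l a j ha
    rw [monomial_ex, C_mul_monomial, mul_one]
    exact CF_monomial ha _
  have hsub : ∀ m, CF L (w i) 0 (curve D w m - g m) := by
    intro m
    have : curve D w m - g m = ∑ l ∈ Finset.univ.erase i,
        C (w l m) * (X 0 ^ (l : ℕ) * X 1 ^ (D - l)) := by
      rw [curve, ← Finset.add_sum_erase _ _ (Finset.mem_univ i), hg]
      ring
    rw [this]
    apply CF.sum
    intro l hl
    apply hmon
    obtain ⟨a, ha⟩ := hw l (Finset.ne_of_mem_erase hl) m
    rw [← ha]
    exact VV_algebraMap _ a
  have hg1 : ∀ m, CF L (w i) 1 (g m) := by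
    intro m
    rw [hg]
    simp only
    rw [mul_comm]
    exact hmon _ _ _ (VV_X _ m)
  have hf1 : ∀ m, CF L (w i) 1 (curve D w m) := by
    intro m
    have : curve D w m = (curve D w m - g m) + g m := by ring
    rw [this]
    exact ((hsub m).mono (Nat.zero_le _)).add (hg1 m)
  have hgG : aeval g G = C (aeval (w i) G) * (X 0 ^ ((i : ℕ) * n) * X 1 ^ ((D - i) * n)) := by
    rw [hg, aeval_scale hG, mul_pow, ← pow_mul, ← pow_mul, mul_comm]
    congr 1
    have h : ((aeval (fun m => C (w i m)) : MvPolynomial (Fin (N + 1)) k →ₐ[k] _)) =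
        (IsScalarTower.toAlgHom k K (MvPolynomial (Fin 2) K)).comp
          (aeval (w i) : MvPolynomial (Fin (N + 1)) k →ₐ[k] K) := by
      apply MvPolynomial.algHom_ext
      intro m
      simp [algebraMap_eq]
    rw [h]
    simp [algebraMap_eq]
  rw [← hgG]
  exact CF_aeval (k := k) hf1 hg1 hsub hG

theorem bad_integral [IsAlgClosed k] {F : Fin c → MvPolynomial (Fin (N + 1)) k} {e : Fin c → ℕ}
    (hF : ∀ b, (F b).IsHomogeneous (e b + 2)) (he : ∀ b, e b ≤ D) (hsm : IsSmoothCI F)
    (w : Fin (D + 2 + 1) → Fin (N + 1) → K) (hzero : ∀ b, aeval (curve (D + 2) w) (F b) = 0)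
    (μ : Idx e D → K) (hrel : ∀ y, ∑ x, μ x * psi F e D w x y = 0)
    (x0 : Idx e D) (hx0 : μ x0 = 1) (hmax : ∀ x, μ x ≠ 0 → e x.1 ≤ e x0.1)
    (i : Fin (D + 2 + 1)) (hi : (i : ℕ) = idx x0)
    (hw : ∀ l, l ≠ i → ∀ m, ∃ a : L, algebraMap L K a = w l m)
    (hμ : ∀ x, ∃ a : L, algebraMap L K a = μ x) (m : Fin (N + 1)) :
    IsIntegral L (w i m) := by
  classical
  choose ν hν using hμ
  -- numerical data
  set E := e x0.1 with hE
  have hr1 : (E + 1) * idx x0 ≤ (x0.2 : ℕ) := idx_mul_le x0
  have hr2 : (x0.2 : ℕ) ≤ (E + 1) * idx x0 + D := rem_le he x0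
  set r : Fin (D + 1) := ⟨(x0.2 : ℕ) - (E + 1) * idx x0, by omega⟩ with hr
  have hr3 : (r : ℕ) + (i : ℕ) * (E + 1) = (x0.2 : ℕ) := by
    rw [hi, hr, mul_comm (idx x0)]
    simp only
    omega
  have hx02 := x0.2.2
  -- the coefficients of the combination of gradients
  have hidx : ∀ b, e b = E → (x0.2 : ℕ) < (e b + 1) * (D + 2) + D + 1 := by
    intro b hb
    rw [hb]
    exact hx02
  set a : Fin c → L := fun b => if h : e b = E then ν ⟨b, ⟨x0.2, hidx b h⟩⟩ else 0 with ha
  have ha0 : a x0.1 = 1 := by
    rw [ha]
    simp only
    rw [dif_pos hE.symm]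
    apply (algebraMap L K).injective
    rw [hν, map_one]
    exact hx0
  refine isIntegral_of_leading (L := L) (w i) (ι := Fin c ⊕ Fin (N + 1))
    (Sum.elim (fun b => map (algebraMap k L) (F b))
      (fun m => ∑ b, C (a b) * map (algebraMap k L) (pderiv m (F b))))
    (Sum.elim (fun b => e b + 2) (fun _ => E + 1)) ?_ ?_ ?_ ?_ m
  · rintro (b | m) <;> simp
  · rintro (b | m)
    · exact (hF b).map _
    · simp only [Sum.elim_inr]
      apply IsHomogeneous.sum
      intro b _
      by_cases hb : e b = E
      · apply IsHomogeneous.C_mul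
        have h1 : (pderiv m (F b)).IsHomogeneous (e b + 1) := by
          simpa using (hF b).pderiv (i := m)
        rw [hb] at h1
        exact h1.map _
      · rw [ha]
        simp only
        rw [dif_neg hb, map_zero, zero_mul]
        exact isHomogeneous_zero _ _ _
  · rintro (b | m)
    · simp only [Sum.elim_inl]
      rw [aeval_map_algebraMap]
      have h1 := (leading_curve w i hw (hF b)).2
      rw [hzero b, zero_sub] at h1
      have h2 := h1 (ex ((i : ℕ) * (e b + 2)) ((D + 2 - i) * (e b + 2)))
      rw [coeff_neg, coeff_C_mul, monomial_ex, coeff_monomial, if_pos rfl, mul_one] at h2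
      exact (Submodule.neg_mem_iff _).mp h2
    · simp only [Sum.elim_inr, Nat.add_sub_cancel]
      -- each block
      have hblock : ∀ b, algebraMap L K (a b) * aeval (w i) (pderiv m (F b)) -
          ∑ t, μ ⟨b, t⟩ * psi F e D w ⟨b, t⟩ (m, r) ∈ VV L (w i) E := by
        intro b
        have h1 : (pderiv m (F b)).IsHomogeneous (e b + 1) := by
          simpa using (hF b).pderiv (i := m)
        have hlead := leading_curve w i hw h1
        rcases lt_trichotomy (e b) E with hb | hb | hb
        · -- smaller degree
          have h2 : a b = 0 := by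
            rw [ha]
            simp only
            rw [dif_neg hb.ne]
          rw [h2, map_zero, zero_mul, zero_sub, Submodule.neg_mem_iff]
          apply Submodule.sum_mem
          intro t _
          have h3 : psi F e D w ⟨b, t⟩ (m, r) ∈ VV L (w i) (e b + 1) := by
            have h4 : CF L (w i) 0 (X 0 ^ (r : ℕ) * X 1 ^ (D - r) : MvPolynomial (Fin 2) K) := by
              rw [monomial_ex]
              exact CF_monomial VV_one _
            have h5 := (h4.mul hlead.1) (ex t ((e b + 1) * (D + 2) + D - t))
            rw [zero_add] at h5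
            exact h5
          have h6 : μ ⟨b, t⟩ ∈ VV L (w i) 0 := by
            rw [← hν]
            exact VV_algebraMap _ _
          have h7 := VV_mul h6 h3
          exact VV_mono _ (by omega) h7
        · -- same degree
          have h2 : algebraMap L K (a b) = μ ⟨b, ⟨x0.2, hidx b hb⟩⟩ := by
            rw [ha]
            simp only
            rw [dif_pos hb, hν]
          have h3 : ∀ t : Fin ((e b + 1) * (D + 2) + D + 1),
              psi F e D w ⟨b, t⟩ (m, r) - (if t = ⟨x0.2, hidx b hb⟩ then
                aeval (w i) (pderiv m (F b)) else 0) ∈ VV L (w i) E := by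
            intro t
            have h4 : CF L (w i) 0 (X 0 ^ (r : ℕ) * X 1 ^ (D - r) : MvPolynomial (Fin 2) K) := by
              rw [monomial_ex]
              exact CF_monomial VV_one _
            have h5 := (h4.mul hlead.2) (ex t ((e b + 1) * (D + 2) + D - t))
            rw [zero_add, Nat.add_sub_cancel, mul_sub, coeff_sub] at h5
            have hr4 : (r : ℕ) + (i : ℕ) * (e b + 1) = (x0.2 : ℕ) := by
              rw [hb]
              exact hr3
            have h6 : coeff (ex (t : ℕ) ((e b + 1) * (D + 2) + D - t))
                (X 0 ^ (r : ℕ) * X 1 ^ (D - r) * (C (aeval (w i) (pderiv m (F b))) *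
                (X 0 ^ ((i : ℕ) * (e b + 1)) * X 1 ^ ((D + 2 - i) * (e b + 1)))) :
                MvPolynomial (Fin 2) K) =
                if t = ⟨x0.2, hidx b hb⟩ then aeval (w i) (pderiv m (F b)) else 0 := by
              have h7 : (X 0 ^ (r : ℕ) * X 1 ^ (D - r) * (C (aeval (w i) (pderiv m (F b))) *
                (X 0 ^ ((i : ℕ) * (e b + 1)) * X 1 ^ ((D + 2 - i) * (e b + 1)))) :
                MvPolynomial (Fin 2) K) = C (aeval (w i) (pderiv m (F b))) *
                (X 0 ^ ((r : ℕ) + (i : ℕ) * (e b + 1)) *
                  X 1 ^ (D - r + (D + 2 - i) * (e b + 1))) := by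
                rw [pow_add, pow_add]
                ring
              rw [h7, coeff_C_mul, monomial_ex, coeff_monomial]
              by_cases ht : t = ⟨x0.2, hidx b hb⟩
              · rw [if_pos ht, if_pos, mul_one]
                rw [ex_eq_iff]
                have h8 : (t : ℕ) = x0.2 := by rw [ht]
                refine ⟨by omega, ?_⟩
                have h9 : (D + 2 - i) * (e b + 1) + i * (e b + 1) = (e b + 1) * (D + 2) := by
                  rw [← add_mul, Nat.sub_add_cancel (Nat.lt_succ_iff.mp i.2), mul_comm]
                have h10 : (r : ℕ) ≤ D := Nat.lt_succ_iff.mp r.2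
                omega
              · rw [if_neg ht, if_neg, mul_zero]
                intro hh
                rw [ex_eq_iff] at hh
                apply ht
                apply Fin.ext
                simp only
                omega
            rw [h6] at h5
            exact VV_mono _ (le_of_eq hb) h5
          have h8 : algebraMap L K (a b) * aeval (w i) (pderiv m (F b)) =
              ∑ t : Fin ((e b + 1) * (D + 2) + D + 1), μ ⟨b, t⟩ *
                (if t = ⟨x0.2, hidx b hb⟩ then aeval (w i) (pderiv m (F b)) else 0) := by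
            simp only [mul_ite, mul_zero]
            rw [Finset.sum_ite_eq', if_pos (Finset.mem_univ _), h2]
          rw [h8, ← Finset.sum_sub_distrib]
          apply Submodule.sum_mem
          intro t _
          rw [← mul_sub, ← neg_sub (psi F e D w ⟨b, t⟩ (m, r)), mul_neg, Submodule.neg_mem_iff]
          have h6 : μ ⟨b, t⟩ ∈ VV L (w i) 0 := by
            rw [← hν]
            exact VV_algebraMap _ _
          have h9 := VV_mul h6 (h3 t)
          rwa [zero_add] at h9
        · -- larger degree
          have h2 : a b = 0 := by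
            rw [ha]
            simp only
            rw [dif_neg hb.ne']
          have h3 : ∀ t, μ ⟨b, t⟩ = 0 := by
            intro t
            by_contra hne
            have := hmax ⟨b, t⟩ hne
            simp only at this
            omega
          simp only [h2, h3, map_zero, zero_mul, Finset.sum_const_zero, sub_zero]
          exact Submodule.zero_mem _
      have hsum := Submodule.sum_mem (VV L (w i) E) (fun b (_ : b ∈ Finset.univ) => hblock b)
      rw [Finset.sum_sub_distrib] at hsum
      have hrel' := hrel (m, r)
      rw [Fintype.sum_sigma] at hrel'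
      rw [hrel', sub_zero] at hsum
      have hfin : aeval (w i) (∑ b, C (a b) * map (algebraMap k L) (pderiv m (F b))) =
          ∑ b, algebraMap L K (a b) * aeval (w i) (pderiv m (F b)) := by
        rw [map_sum]
        refine Finset.sum_congr rfl fun b _ => ?_
        rw [map_mul, aeval_C, aeval_map_algebraMap]
      rw [hfin]
      exact hsum
  · intro z hz
    apply smooth_extend hsm z (fun b => algebraMap L (AlgebraicClosure L) (a b))
    · intro h
      have := congrFun h x0.1
      simp [ha0] at this
    · intro b
      have := hz (Sum.inl b)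
      simp only [Sum.elim_inl, aeval_map_algebraMap] at this
      exact this
    · intro m
      have := hz (Sum.inr m)
      simp only [Sum.elim_inr, map_sum, map_mul, aeval_C, aeval_map_algebraMap] at this
      exact this

end

end Pool.Agent.Helper49.VF
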