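import Mathlib

/-!
# Points whose leading forms have no common zero are integral
-/

namespace Pool.Agent.Helper49.VF

open MvPolynomial

variable {L K : Type*} [Field L] [Field K] [Algebra L K] {σ : Type*}

/-- Values at `x` of polynomials over `L` of total degree at most `j`. -/
noncomputable def VV (L : Type*) {K : Type*} [Field L] [Field K] [Algebra L K] {σ : Type*}
    (x : σ → K) (j : ℕ) : Submodule L K :=
  (restrictTotalDegree σ L j).map (aeval x : MvPolynomial σ L →ₐ[L] K).toLinearMap

lemma mem_VV {x : σ → K} {j : ℕ} {y : K} :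
    y ∈ VV L x j ↔ ∃ p : MvPolynomial σ L, p.totalDegree ≤ j ∧ aeval x p = y := by
  simp [VV, Submodule.mem_map, mem_restrictTotalDegree]

lemma VV_mono (x : σ → K) {i j : ℕ} (h : i ≤ j) : VV L x i ≤ VV L x j := by
  intro y hy
  rw [mem_VV] at hy ⊢
  obtain ⟨p, hp, rfl⟩ := hy
  exact ⟨p, hp.trans h, rfl⟩

lemma VV_mul {x : σ → K} {i j : ℕ} {y z : K} (hy : y ∈ VV L x i) (hz : z ∈ VV L x j) :
    y * z ∈ VV L x (i + j) := by
  rw [mem_VV] at hy hz ⊢
  obtain ⟨p, hp, rfl⟩ := hy
  obtain ⟨q, hq, rfl⟩ := hz
  exact ⟨p * q, (totalDegree_mul _ _).trans (add_le_add hp hq), map_mul _ _ _⟩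

lemma VV_algebraMap (x : σ → K) (c : L) : algebraMap L K c ∈ VV L x 0 := by
  rw [mem_VV]
  exact ⟨C c, by simp, by simp⟩

lemma VV_X (x : σ → K) (m : σ) : x m ∈ VV L x 1 := by
  rw [mem_VV]
  exact ⟨X m, by simp, by simp⟩

lemma VV_aeval (x : σ → K) {p : MvPolynomial σ L} {j : ℕ} (hp : p.totalDegree ≤ j) :
    aeval x p ∈ VV L x j := mem_VV.mpr ⟨p, hp, rfl⟩

lemma isIntegral_of_pow [Fintype σ] (x : σ → K)
    (hpow : ∀ m, ∃ M : ℕ, 0 < M ∧ x m ^ M ∈ VV L x (M - 1)) (m : σ) : IsIntegral L (x m) := by
  classical
  choose M hM0 hM using hpow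
  have hstep : ∀ j, ∑ m, M m ≤ j → VV L x (j + 1) ≤ VV L x j := by
    intro j hj y hy
    rw [mem_VV] at hy
    obtain ⟨p, hp, rfl⟩ := hy
    rw [p.as_sum, map_sum]
    apply Submodule.sum_mem
    intro α hα
    have hdeg : α.degree ≤ j + 1 := by
      rw [Finsupp.degree]
      exact (le_totalDegree hα).trans hp
    rcases Nat.lt_or_ge α.degree (j + 1) with hlt | hge
    · apply VV_aeval
      refine (totalDegree_monomial_le _ _).trans ?_
      exact Nat.lt_succ_iff.mp hlt
    · have hα' : ∑ m, M m < ∑ m, α m := by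
        rw [← Finsupp.degree_eq_sum]
        omega
      obtain ⟨m, _, hm⟩ := Finset.exists_lt_of_sum_lt hα'
      have hle : Finsupp.single m (M m) ≤ α := by
        rw [Finsupp.single_le_iff]
        exact hm.le
      have hsplit : monomial α (coeff α p) =
          monomial (α - Finsupp.single m (M m)) (coeff α p) * X m ^ M m := by
        rw [X_pow_eq_monomial, monomial_mul, mul_one, tsub_add_cancel_of_le hle]
      rw [hsplit, map_mul, map_pow, aeval_X]
      have hd : (α - Finsupp.single m (M m)).degree + M m = α.degree := by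
        conv_rhs => rw [← tsub_add_cancel_of_le hle]
        simp
      have h1 : aeval x (monomial (α - Finsupp.single m (M m)) (coeff α p)) ∈
          VV L x ((α - Finsupp.single m (M m)).degree) := by
        apply VV_aeval
        exact totalDegree_monomial_le _ _
      have h2 := VV_mul h1 (hM m)
      have h3 := hM0 m
      exact VV_mono x (by omega) h2
  have hall : ∀ j, VV L x j ≤ VV L x (∑ m, M m) := by
    intro j
    induction j with
    | zero => exact VV_mono x (Nat.zero_le _)
    | succ j ih =>
      rcases Nat.lt_or_ge j (∑ m, M m) with h | h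
      · exact VV_mono x h
      · exact (hstep j h).trans ih
  have hfg : ((aeval x : MvPolynomial σ L →ₐ[L] K).range.toSubmodule) = VV L x (∑ m, M m) := by
    apply le_antisymm
    · rintro y ⟨p, rfl⟩
      exact hall _ (VV_aeval x le_rfl)
    · intro y hy
      rw [mem_VV] at hy
      obtain ⟨p, _, rfl⟩ := hy
      exact ⟨p, rfl⟩
  apply IsIntegral.of_mem_of_fg (aeval x : MvPolynomial σ L →ₐ[L] K).range
  · rw [hfg, VV]
    apply Submodule.FG.map
    exact Module.Finite.iff_fg.mp inferInstance
  · exact ⟨X m, by simp⟩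

lemma homogeneousComponent_mul_of_isHomogeneous {h q : MvPolynomial σ L} {n : ℕ}
    (hh : h.IsHomogeneous n) (M : ℕ) :
    homogeneousComponent M (h * q) = if n ≤ M then h * homogeneousComponent (M - n) q else 0 := by
  conv_lhs => rw [← sum_homogeneousComponent q, Finset.mul_sum, map_sum]
  have h1 : ∀ i ∈ Finset.range (q.totalDegree + 1),
      homogeneousComponent M (h * homogeneousComponent i q) =
        if n + i = M then h * homogeneousComponent i q else 0 := by
    intro i _
    have hi : (h * homogeneousComponent i q).IsHomogeneous (n + i) :=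
      hh.mul (homogeneousComponent_isHomogeneous _ _)
    rw [homogeneousComponent_of_mem hi]
    simp only [eq_comm]
  rw [Finset.sum_congr rfl h1]
  split_ifs with hn
  · have h2 : ∀ i ∈ Finset.range (q.totalDegree + 1),
        (if n + i = M then h * homogeneousComponent i q else 0) =
        if i = M - n then h * homogeneousComponent (M - n) q else 0 := by
      intro i _
      by_cases hi : i = M - n
      · subst hi
        rw [if_pos (by omega), if_pos rfl]
      · rw [if_neg (by omega), if_neg hi]
    rw [Finset.sum_congr rfl h2, Finset.sum_ite_eq']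
    split_ifs with hmem
    · rfl
    · rw [homogeneousComponent_eq_zero, mul_zero]
      simp only [Finset.mem_range, not_lt] at hmem
      omega
  · apply Finset.sum_eq_zero
    intro i _
    rw [if_neg (by omega)]

/-- **Leading form criterion.** -/
theorem isIntegral_of_leading [Fintype σ] (x : σ → K) {ι : Type*} (h : ι → MvPolynomial σ L)
    (n : ι → ℕ) (hn : ∀ a, 0 < n a) (hh : ∀ a, (h a).IsHomogeneous (n a))
    (hx : ∀ a, aeval x (h a) ∈ VV L x (n a - 1))
    (hz : ∀ z : σ → AlgebraicClosure L, (∀ a, aeval z (h a) = 0) → z = 0) (m : σ) :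
    IsIntegral L (x m) := by
  apply isIntegral_of_pow
  intro m
  have key : ∀ p ∈ Ideal.span (Set.range h), ∀ M, 0 < M →
      aeval x (homogeneousComponent M p) ∈ VV L x (M - 1) := by
    intro p hp M hM
    rw [Ideal.span, Finsupp.mem_span_range_iff_exists_finsupp] at hp
    obtain ⟨q, rfl⟩ := hp
    rw [Finsupp.sum, map_sum, map_sum]
    apply Submodule.sum_mem
    intro a _
    rw [smul_eq_mul, mul_comm, homogeneousComponent_mul_of_isHomogeneous (hh a)]
    split_ifs with hna
    · rw [map_mul]
      have h1 : aeval x (homogeneousComponent (M - n a) (q a)) ∈ VV L x (M - n a) :=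
        VV_aeval x (homogeneousComponent_isHomogeneous _ _).totalDegree_le
      have h2 := VV_mul (hx a) h1
      have h3 := hn a
      exact VV_mono x (by omega) h2
    · simp
  have hrad : (X m : MvPolynomial σ L) ∈ (Ideal.span (Set.range h)).radical := by
    rw [← vanishingIdeal_zeroLocus_eq_radical (K := AlgebraicClosure L), mem_vanishingIdeal_iff]
    intro z hzz
    have : z = 0 := by
      apply hz
      intro a
      exact hzz _ (Ideal.subset_span ⟨a, rfl⟩)
    rw [this]
    simp
  obtain ⟨M, hM⟩ := hrad
  refine ⟨M + 1, Nat.succ_pos _, ?_⟩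
  have hM' : (X m : MvPolynomial σ L) ^ (M + 1) ∈ Ideal.span (Set.range h) := by
    rw [pow_succ]
    exact Ideal.mul_mem_right _ _ hM
  have := key _ hM' (M + 1) (Nat.succ_pos _)
  have hX : ((X m : MvPolynomial σ L) ^ (M + 1)).IsHomogeneous (M + 1) := isHomogeneous_X_pow _ _
  rw [homogeneousComponent_eq_self hX, map_pow, aeval_X] at this
  exact this

end Pool.Agent.Helper49.VF
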