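import Pool.Agent.Helper49.VF.RNC

/-!
# Spanning by multiples of powers of linear forms in characteristic p
-/

namespace Pool.Agent.Helper49.VF

open MvPolynomial

variable {k : Type*} [Field k]

lemma geom_char {p : ℕ} [hp : Fact p.Prime] {B : Type*} [CommRing B] [IsDomain B] [CharP B p]
    (m : ℕ) {x y : B} (hxy : x ≠ y) :
    (x - y) ^ (p ^ m - 1) = ∑ i ∈ Finset.range (p ^ m), x ^ (p ^ m - 1 - i) * y ^ i := by
  have h1 := geom_sum₂_mul y x (p ^ m)
  have h2 : (x - y) ^ (p ^ m) = x ^ (p ^ m) - y ^ (p ^ m) := sub_pow_char_pow x y m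
  have h3 : (x - y) ^ (p ^ m - 1) * (x - y) = (x - y) ^ (p ^ m) := by
    rw [← pow_succ, Nat.sub_add_cancel]
    exact Nat.one_le_pow _ _ hp.out.pos
  apply mul_right_cancel₀ (sub_ne_zero.mpr hxy)
  rw [h3, h2]
  have h4 : (∑ i ∈ Finset.range (p ^ m), x ^ (p ^ m - 1 - i) * y ^ i) * (x - y) =
      -((∑ i ∈ Finset.range (p ^ m), y ^ i * x ^ (p ^ m - 1 - i)) * (y - x)) := by
    have : ∀ i ∈ Finset.range (p ^ m), x ^ (p ^ m - 1 - i) * y ^ i =
        y ^ i * x ^ (p ^ m - 1 - i) := fun i _ => mul_comm _ _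
    rw [Finset.sum_congr rfl this]
    ring
  rw [h4, h1]
  ring

/-- The linear form vanishing at `(r : 1)`. -/
noncomputable def ell (r : k) : MvPolynomial (Fin 2) k := X 0 - C r * X 1

lemma ell_homogeneous (r : k) : (ell r).IsHomogeneous 1 :=
  (isHomogeneous_X _ _).sub (isHomogeneous_C_mul_X _ _)

/-- Combinations of the `ell (P j) ^ M` with coefficients of degree `R`. -/
noncomputable def WW {n : ℕ} (P : Fin n → k) (M R : ℕ) :
    Submodule k (MvPolynomial (Fin 2) k) where
  carrier := {h | ∃ g : Fin n → MvPolynomial (Fin 2) k, (∀ j, (g j).IsHomogeneous R) ∧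
    h = ∑ j, ell (P j) ^ M * g j}
  add_mem' := by
    rintro _ _ ⟨g, hg, rfl⟩ ⟨g', hg', rfl⟩
    refine ⟨fun j => g j + g' j, fun j => (hg j).add (hg' j), ?_⟩
    rw [← Finset.sum_add_distrib]
    refine Finset.sum_congr rfl fun j _ => ?_
    ring
  zero_mem' := ⟨0, fun _ => isHomogeneous_zero _ _ _, by simp⟩
  smul_mem' := by
    rintro c _ ⟨g, hg, rfl⟩
    refine ⟨fun j => C c * g j, fun j => (hg j).C_mul c, ?_⟩
    rw [smul_eq_C_mul, Finset.mul_sum]
    refine Finset.sum_congr rfl fun j _ => ?_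
    ring

lemma mem_WW {n : ℕ} {P : Fin n → k} {M R : ℕ} (j : Fin n) {g : MvPolynomial (Fin 2) k}
    (hg : g.IsHomogeneous R) : ell (P j) ^ M * g ∈ WW P M R := by
  classical
  refine ⟨Pi.single j g, ?_, ?_⟩
  · intro i
    by_cases h : i = j
    · subst h
      simpa using hg
    · rw [Pi.single_eq_of_ne h]
      exact isHomogeneous_zero _ _ _
  · rw [Finset.sum_eq_single j]
    · simp
    · intro i _ hi
      rw [Pi.single_eq_of_ne hi, mul_zero]
    · intro h
      exact absurd (Finset.mem_univ j) h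

lemma mul_mem_WW {n : ℕ} {P : Fin n → k} {M R S : ℕ} {h q : MvPolynomial (Fin 2) k}
    (hh : h ∈ WW P M R) (hq : q.IsHomogeneous S) : h * q ∈ WW P M (R + S) := by
  obtain ⟨g, hg, rfl⟩ := hh
  refine ⟨fun j => g j * q, fun j => (hg j).mul hq, ?_⟩
  rw [Finset.sum_mul]
  refine Finset.sum_congr rfl fun j _ => ?_
  ring

section

variable {p : ℕ} [hp : Fact p.Prime] [CharP k p] (m : ℕ)

/-- The two expansions of `(s - y t)^(Q-1)`. -/
lemma two_expansions (r : k) :
    ∑ i ∈ Finset.range (p ^ m), Polynomial.C (X 0 ^ (p ^ m - 1 - i) * X 1 ^ i) *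
      (Polynomial.X : Polynomial (MvPolynomial (Fin 2) k)) ^ i =
    ∑ i ∈ Finset.range (p ^ m), Polynomial.C (ell r ^ (p ^ m - 1 - i) * X 1 ^ i) *
      (Polynomial.X - Polynomial.C (C r)) ^ i := by
  have h0 : (X 0 : MvPolynomial (Fin 2) k) ≠ 0 := X_ne_zero _
  have h1 : (X 1 : MvPolynomial (Fin 2) k) ≠ 0 := X_ne_zero _
  have hne : (Polynomial.C (X 0) : Polynomial (MvPolynomial (Fin 2) k)) ≠
      Polynomial.C (X 1) * Polynomial.X := by
    intro h
    have := congrArg (fun q => Polynomial.coeff q 0) h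
    simp at this
  have hne2 : (Polynomial.C (ell r) : Polynomial (MvPolynomial (Fin 2) k)) ≠
      Polynomial.C (X 1) * (Polynomial.X - Polynomial.C (C r)) := by
    intro h
    have := congrArg (fun q => Polynomial.coeff q 1) h
    simp only [mul_sub, Polynomial.coeff_sub, Polynomial.coeff_C_mul, Polynomial.coeff_X_one,
      Polynomial.coeff_C_succ, mul_one, mul_zero, sub_zero] at this
    exact h1 this.symm
  have e1 := geom_char (p := p) m hne
  have e2 := geom_char (p := p) m hne2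
  have h3 : (Polynomial.C (ell r) : Polynomial (MvPolynomial (Fin 2) k)) -
      Polynomial.C (X 1) * (Polynomial.X - Polynomial.C (C r)) =
      Polynomial.C (X 0) - Polynomial.C (X 1) * Polynomial.X := by
    rw [ell]
    simp only [map_sub, map_mul]
    ring
  rw [h3] at e2
  have h4 : ∀ i ∈ Finset.range (p ^ m), Polynomial.C (X 0 ^ (p ^ m - 1 - i) * X 1 ^ i) *
      (Polynomial.X : Polynomial (MvPolynomial (Fin 2) k)) ^ i =
      Polynomial.C (X 0) ^ (p ^ m - 1 - i) * (Polynomial.C (X 1) * Polynomial.X) ^ i := by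
    intro i _
    rw [map_mul, map_pow, map_pow, mul_pow]
    ring
  have h5 : ∀ i ∈ Finset.range (p ^ m), Polynomial.C (ell r ^ (p ^ m - 1 - i) * X 1 ^ i) *
      (Polynomial.X - Polynomial.C (C r)) ^ i =
      Polynomial.C (ell r) ^ (p ^ m - 1 - i) *
        (Polynomial.C (X 1) * (Polynomial.X - Polynomial.C (C r))) ^ i := by
    intro i _
    rw [map_mul, map_pow, map_pow, mul_pow]
    ring
  rw [Finset.sum_congr rfl h4, Finset.sum_congr rfl h5, ← e1, ← e2]

/-- Applying a linear functional coefficientwise. -/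
lemma functional_expansion (r : k) (Λ : MvPolynomial (Fin 2) k →ₗ[k] k) :
    ∑ i ∈ Finset.range (p ^ m), Polynomial.C (Λ (X 0 ^ (p ^ m - 1 - i) * X 1 ^ i)) *
      (Polynomial.X : Polynomial k) ^ i =
    ∑ i ∈ Finset.range (p ^ m), Polynomial.C (Λ (ell r ^ (p ^ m - 1 - i) * X 1 ^ i)) *
      (Polynomial.X - Polynomial.C r) ^ i := by
  have key : ∀ (h : ℕ → MvPolynomial (Fin 2) k) (g : ℕ → Polynomial k) (l : ℕ),
      Λ (Polynomial.coeff (∑ i ∈ Finset.range (p ^ m), Polynomial.C (h i) *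
        (g i).map (C : k →+* MvPolynomial (Fin 2) k)) l) =
      Polynomial.coeff (∑ i ∈ Finset.range (p ^ m), Polynomial.C (Λ (h i)) * g i) l := by
    intro h g l
    rw [Polynomial.finsetSum_coeff, Polynomial.finsetSum_coeff, map_sum]
    refine Finset.sum_congr rfl fun i _ => ?_
    rw [Polynomial.coeff_C_mul, Polynomial.coeff_C_mul, Polynomial.coeff_map, mul_comm,
      ← smul_eq_C_mul, map_smul, smul_eq_mul, mul_comm]
  have e := two_expansions (p := p) m r
  ext l
  have k1 := key (fun i => X 0 ^ (p ^ m - 1 - i) * X 1 ^ i) (fun i => Polynomial.X ^ i) l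
  have k2 := key (fun i => ell r ^ (p ^ m - 1 - i) * X 1 ^ i)
    (fun i => (Polynomial.X - Polynomial.C r) ^ i) l
  simp only [Polynomial.map_pow, Polynomial.map_X, Polynomial.map_sub, Polynomial.map_C] at k1 k2
  rw [← k1, ← k2, e]

theorem span_monomials {n M : ℕ} {P : Fin n → k} (hP : Function.Injective P) (hM : M < p ^ m)
    (hn : p ^ m ≤ n * (p ^ m - M)) {i : ℕ} (hi : i < p ^ m) :
    X 0 ^ (p ^ m - 1 - i) * X 1 ^ i ∈ WW P M (p ^ m - 1 - M) := by
  classical
  by_contra hcon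
  obtain ⟨Λ, hΛ, hle⟩ := Submodule.exists_le_ker_of_notMem hcon
  set G : Polynomial k := ∑ i ∈ Finset.range (p ^ m),
    Polynomial.C (Λ (X 0 ^ (p ^ m - 1 - i) * X 1 ^ i)) * (Polynomial.X : Polynomial k) ^ i with hG
  have hdvd : ∀ j, (Polynomial.X - Polynomial.C (P j)) ^ (p ^ m - M) ∣ G := by
    intro j
    rw [hG, functional_expansion (p := p) m (P j) Λ]
    apply Finset.dvd_sum
    intro l hl
    rw [Finset.mem_range] at hl
    rcases Nat.lt_or_ge l (p ^ m - M) with h | h
    · have hmem : ell (P j) ^ (p ^ m - 1 - l) * X 1 ^ l ∈ WW P M (p ^ m - 1 - M) := by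
        have h1 : ell (P j) ^ (p ^ m - 1 - l) * X 1 ^ l =
            ell (P j) ^ M * (ell (P j) ^ (p ^ m - 1 - M - l) * X 1 ^ l) := by
          rw [← mul_assoc, ← pow_add]
          congr 2
          omega
        rw [h1]
        apply mem_WW
        have h2 := ((ell_homogeneous (P j)).pow (p ^ m - 1 - M - l)).mul
          (isHomogeneous_X_pow (R := k) (1 : Fin 2) l)
        have h3 : 1 * (p ^ m - 1 - M - l) + l = p ^ m - 1 - M := by omega
        rwa [h3] at h2
      have h0 : Λ (ell (P j) ^ (p ^ m - 1 - l) * X 1 ^ l) = 0 := hle hmem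
      rw [h0, map_zero, zero_mul]
      exact dvd_zero _
    · exact Dvd.dvd.mul_left (pow_dvd_pow _ h) _
  have hprod : ∏ j, (Polynomial.X - Polynomial.C (P j)) ^ (p ^ m - M) ∣ G := by
    apply Finset.prod_dvd_of_coprime
    · intro a _ b _ hab
      exact (Polynomial.isCoprime_X_sub_C_of_isUnit_sub
        (sub_ne_zero.mpr (hP.ne hab)).isUnit).pow
    · intro j _
      exact hdvd j
  have hpos : 0 < p ^ m := lt_of_le_of_lt (Nat.zero_le _) hi
  have hGdeg : G.degree < (p ^ m : ℕ) := by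
    rw [hG]
    refine lt_of_le_of_lt (Polynomial.degree_sum_le _ _) ?_
    rw [Finset.sup_lt_iff]
    · intro l hl
      refine lt_of_le_of_lt (Polynomial.degree_C_mul_X_pow_le _ _) ?_
      exact_mod_cast Finset.mem_range.mp hl
    · exact_mod_cast WithBot.bot_lt_coe _
  have hG0 : G = 0 := by
    by_contra hG0
    have h1 := Polynomial.degree_le_of_dvd hprod hG0
    have h2 : (∏ j, (Polynomial.X - Polynomial.C (P j)) ^ (p ^ m - M)).degree =
        ((n * (p ^ m - M) : ℕ) : WithBot ℕ) := by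
      rw [Polynomial.degree_prod]
      simp [Polynomial.degree_pow, Polynomial.degree_X_sub_C]
    rw [h2] at h1
    have h3 := lt_of_le_of_lt h1 hGdeg
    have h4 : n * (p ^ m - M) < p ^ m := by exact_mod_cast h3
    omega
  have hcoef := congrArg (fun q => Polynomial.coeff q i) hG0
  rw [hG] at hcoef
  simp only [Polynomial.finsetSum_coeff, Polynomial.coeff_C_mul, Polynomial.coeff_X_pow,
    Polynomial.coeff_zero, mul_ite, mul_one, mul_zero] at hcoef
  rw [Finset.sum_ite_eq, if_pos (Finset.mem_range.mpr hi)] at hcoef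
  exact hΛ hcoef

/-- Every form of degree `Q - 1 + a` is a combination of the `ell (P j) ^ M`. -/
theorem span_forms {n M : ℕ} {P : Fin n → k} (hP : Function.Injective P) (hM : M < p ^ m)
    (hn : p ^ m ≤ n * (p ^ m - M)) (a : ℕ) {h : MvPolynomial (Fin 2) k}
    (hh : h.IsHomogeneous (p ^ m - 1 + a)) : h ∈ WW P M (p ^ m - 1 - M + a) := by
  classical
  rw [h.as_sum]
  apply Submodule.sum_mem
  intro α hα
  have hdeg : α 0 + α 1 = p ^ m - 1 + a := by
    have : α.degree = p ^ m - 1 + a := by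
      by_contra hne
      exact (mem_support_iff.mp hα) (hh.coeff_eq_zero hne)
    rw [Finsupp.degree_eq_sum, Fin.sum_univ_two] at this
    exact this
  have hα' : α = ex (α 0) (α 1) := by
    ext i
    fin_cases i <;> simp [ex]
  have hmon : monomial α (coeff α h) = coeff α h • (X 0 ^ (α 0) * X 1 ^ (α 1)) := by
    rw [monomial_ex, smul_monomial, smul_eq_mul, mul_one, ← hα']
  rw [hmon]
  apply Submodule.smul_mem
  have hpos : 0 < p ^ m := lt_of_le_of_lt (Nat.zero_le _) hM
  set i := min (α 1) (p ^ m - 1) with hi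
  have hi1 : i < p ^ m := by omega
  have hsplit : (X 0 ^ (α 0) * X 1 ^ (α 1) : MvPolynomial (Fin 2) k) =
      (X 0 ^ (p ^ m - 1 - i) * X 1 ^ i) *
        (X 0 ^ (α 0 - (p ^ m - 1 - i)) * X 1 ^ (α 1 - i)) := by
    have h1 : α 0 = (p ^ m - 1 - i) + (α 0 - (p ^ m - 1 - i)) := by omega
    have h2 : α 1 = i + (α 1 - i) := by omega
    conv_lhs => rw [h1, h2, pow_add, pow_add]
    ring
  rw [hsplit]
  apply mul_mem_WW (span_monomials (p := p) m hP hM hn hi1)
  have h3 := (isHomogeneous_X_pow (R := k) (0 : Fin 2) (α 0 - (p ^ m - 1 - i))).mul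
    (isHomogeneous_X_pow (R := k) (1 : Fin 2) (α 1 - i))
  have h4 : α 0 - (p ^ m - 1 - i) + (α 1 - i) = a := by omega
  rwa [h4] at h3

end

end Pool.Agent.Helper49.VF
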