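import Pool.Agent.Helper49.VF.Generic

/-!
# Very free curves on smooth complete intersections: the quadratic bound
-/

namespace Pool.Agent.Helper49.VF

open MvPolynomial

universe u

variable {k : Type u} [Field k]

open scoped IntermediateField.algebraAdjoinAdjoin in
/-- A field generated by few elements up to algebraic extension has small transcendence degree. -/
lemma trdeg_le_of_integral {K : Type u} [Field K] [Algebra k K] (S : Set K)
    (h : Algebra.IsAlgebraic (IntermediateField.adjoin k S) K) :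
    Algebra.trdeg k K ≤ Cardinal.mk S := by
  have h1 : Algebra.IsAlgebraic (Algebra.adjoin k S) (IntermediateField.adjoin k S) :=
    inferInstance
  have h2 : Algebra.IsAlgebraic (Algebra.adjoin k S) K :=
    Algebra.IsAlgebraic.trans (Algebra.adjoin k S) (IntermediateField.adjoin k S) K
  exact Algebra.IsAlgebraic.trdeg_le_cardinalMk k S

/-- If a matrix over a field has no right inverse, its rows are dependent. -/
lemma exists_left_kernel {K : Type*} [Field K] {m n : Type*} [Fintype m] [Fintype n]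
    [DecidableEq m] (M : Matrix m n K) (h : ¬ ∃ Y : Matrix n m K, M * Y = 1) :
    ∃ v : m → K, v ≠ 0 ∧ ∀ y, ∑ x, v x * M x y = 0 := by
  classical
  rw [← Matrix.mulVec_surjective_iff_exists_right_inverse] at h
  have hlt : LinearMap.range M.mulVecLin < ⊤ := by
    rw [lt_top_iff_ne_top]
    intro htop
    apply h
    have := LinearMap.range_eq_top.mp htop
    exact this
  obtain ⟨φ, hφ, hle⟩ := Submodule.exists_le_ker_of_lt_top _ hlt
  refine ⟨fun x => φ (Pi.single x 1), ?_, ?_⟩
  · intro h0
    apply hφ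
    apply LinearMap.pi_ext'
    intro x
    apply LinearMap.ext_ring
    exact congrFun h0 x
  · intro y
    have h1 : φ (M.mulVec (Pi.single y 1)) = 0 := by
      have : M.mulVecLin (Pi.single y 1) ∈ LinearMap.range M.mulVecLin := ⟨_, rfl⟩
      exact hle this
    have h2 : M.mulVec (Pi.single y 1) = ∑ x, M x y • (Pi.single x (1 : K) : m → K) := by
      rw [Matrix.mulVec_single_one]
      conv_lhs => rw [← Finset.univ_sum_single (M.col y)]
      refine Finset.sum_congr rfl fun x _ => ?_
      rw [← Pi.single_smul, smul_eq_mul, mul_one]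
      rfl
    rw [h2, map_sum] at h1
    rw [← h1]
    refine Finset.sum_congr rfl fun x _ => ?_
    rw [map_smul, smul_eq_mul, mul_comm]

lemma card_idx {c : ℕ} (e : Fin c → ℕ) (D : ℕ) :
    Fintype.card (Idx e D) = ∑ b, ((e b + 1) * (D + 2) + D + 1) := by
  simp [Idx]

/-- Transfer of a good curve from an extension field. -/
lemma good_transfer [IsAlgClosed k] {N c D : ℕ} (hc : 0 < c)
    {F : Fin c → MvPolynomial (Fin (N + 1)) k} {e : Fin c → ℕ}
    (hF : ∀ b, (F b).IsHomogeneous (e b + 2)) {K : Type u} [Field K] [Algebra k K]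
    (w : Fin (D + 2 + 1) → Fin (N + 1) → K) (hw : ∀ b, aeval (curve (D + 2) w) (F b) = 0)
    (Y : Matrix (Fin (N + 1) × Fin (D + 1)) (Idx e D) K) (hY : psi F e D w * Y = 1) :
    HasVeryFreeCurve F (D + 2) := by
  classical
  let τ := (Fin (D + 2 + 1) × Fin (N + 1)) ⊕ ((Fin (N + 1) × Fin (D + 1)) × Idx e D)
  let W : Fin (D + 2 + 1) → Fin (N + 1) → MvPolynomial τ k := fun l m => X (Sum.inl (l, m))
  let S : Set (MvPolynomial τ k) :=
    (Set.range fun p : Fin c × (Fin 2 →₀ ℕ) => coeff p.2 (aeval (curve (D + 2) W) (F p.1))) ∪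
    (Set.range fun p : Idx e D × Idx e D => ∑ y, psi F e D W p.1 y * X (Sum.inr (y, p.2)) -
      C ((1 : Matrix (Idx e D) (Idx e D) k) p.1 p.2))
  have hW : ∀ {B : Type u} [CommRing B] [Algebra k B] (z : τ → B),
      (fun l m => aeval z (W l m)) = fun l m => z (Sum.inl (l, m)) := by
    intro B _ _ z
    funext l m
    simp [W]
  have key1 : ∀ {B : Type u} [CommRing B] [Algebra k B] (z : τ → B) (b : Fin c)
      (α : Fin 2 →₀ ℕ), aeval z (coeff α (aeval (curve (D + 2) W) (F b))) =
        coeff α (aeval (curve (D + 2) (fun l m => z (Sum.inl (l, m)))) (F b)) := by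
    intro B _ _ z b α
    have h1 := map_aeval_curve (aeval z : MvPolynomial τ k →ₐ[k] B) W (F b)
    rw [hW] at h1
    rw [← h1, coeff_map]
    rfl
  have key2 : ∀ {B : Type u} [CommRing B] [Algebra k B] (z : τ → B) (x x' : Idx e D),
      aeval z (∑ y, psi F e D W x y * X (Sum.inr (y, x')) -
        C ((1 : Matrix (Idx e D) (Idx e D) k) x x')) =
      ∑ y, psi F e D (fun l m => z (Sum.inl (l, m))) x y * z (Sum.inr (y, x')) -
        algebraMap k B ((1 : Matrix (Idx e D) (Idx e D) k) x x') := by
    intro B _ _ z x x'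
    rw [map_sub, map_sum, aeval_C]
    congr 1
    refine Finset.sum_congr rfl fun y _ => ?_
    rw [map_mul, aeval_X, map_psi, hW]
  obtain ⟨z, hz⟩ := exists_point S (fun t => Sum.elim (fun p => w p.1 p.2)
      (fun q => Y q.1 q.2) t : τ → K) (by
    rintro p (⟨⟨b, α⟩, rfl⟩ | ⟨⟨x, x'⟩, rfl⟩)
    · simp only
      rw [key1]
      simp only [Sum.elim_inl]
      rw [hw b, coeff_zero]
    · simp only
      rw [key2]
      simp only [Sum.elim_inl, Sum.elim_inr]
      have := congrFun (congrFun hY x) x'
      rw [Matrix.mul_apply] at this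
      rw [this, sub_eq_zero]
      rw [Matrix.one_apply, Matrix.one_apply]
      split_ifs <;> simp)
  apply hasVeryFreeCurve_of_psi hc hF (fun l m => z (Sum.inl (l, m))) _
    (Matrix.of fun y x => z (Sum.inr (y, x)))
  · ext x x'
    have := hz _ (Or.inr ⟨(x, x'), rfl⟩)
    simp only at this
    rw [key2, sub_eq_zero] at this
    rw [Matrix.mul_apply]
    simp only [Matrix.of_apply]
    rw [this]
    rfl
  · intro b
    ext α
    have := hz _ (Or.inl ⟨(b, α), rfl⟩)
    simp only at this
    rw [key1] at this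
    rw [this, coeff_zero]

theorem hasVeryFreeCurve_quadratic [IsAlgClosed k] {N c D : ℕ} (hc : 0 < c)
    {F : Fin c → MvPolynomial (Fin (N + 1)) k} {e : Fin c → ℕ}
    (hF : ∀ b, (F b).IsHomogeneous (e b + 2)) (he : ∀ b, e b ≤ D) (hsm : IsSmoothCI F)
    (hN : 2 * (D + 2) * ∑ b, (e b + 2) ≤ N + 1) : HasVeryFreeCurve F (D + 2) := by
  classical
  let W : Fin (D + 2 + 1) → Fin (N + 1) → MvPolynomial (Fin (D + 2 + 1) × Fin (N + 1)) k :=
    fun l m => X (l, m)
  set eqs : Finset (MvPolynomial (Fin (D + 2 + 1) × Fin (N + 1)) k) :=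
    Finset.univ.image (fun p : (Σ b : Fin c, Fin ((e b + 2) * (D + 2) + 1)) =>
      coeff (ex p.2 ((e p.1 + 2) * (D + 2) - p.2)) (aeval (curve (D + 2) W) (F p.1))) with heqs
  have hcard : eqs.card ≤ ∑ b, ((e b + 2) * (D + 2) + 1) := by
    refine Finset.card_image_le.trans (le_of_eq ?_)
    simp
  set I : Ideal (MvPolynomial (Fin (D + 2 + 1) × Fin (N + 1)) k) :=
    Ideal.span (eqs : Set (MvPolynomial (Fin (D + 2 + 1) × Fin (N + 1)) k)) with hI
  have hFh : ∀ {B : Type u} [CommRing B] [Algebra k B] (w : Fin (D + 2 + 1) → Fin (N + 1) → B)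
      (b : Fin c), (aeval (curve (D + 2) w) (F b)).IsHomogeneous ((e b + 2) * (D + 2)) := by
    intro B _ _ w b
    have := (hF b).aeval (curve (D + 2) w) (fun m => curve_homogeneous w m)
    rwa [mul_comm] at this
  have hspec : ∀ {B : Type u} [CommRing B] [Algebra k B]
      (φ : MvPolynomial (Fin (D + 2 + 1) × Fin (N + 1)) k →ₐ[k] B),
      (∀ q ∈ eqs, φ q = 0) ↔ ∀ b, aeval (curve (D + 2) (fun l m => φ (X (l, m)))) (F b) = 0 := by
    intro B _ _ φ
    have h1 : ∀ b, map (φ : MvPolynomial (Fin (D + 2 + 1) × Fin (N + 1)) k →+* B)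
        (aeval (curve (D + 2) W) (F b)) = aeval (curve (D + 2) (fun l m => φ (X (l, m)))) (F b) :=
      fun b => map_aeval_curve φ W (F b)
    constructor
    · intro h b
      apply binary_ext (hFh _ b) (isHomogeneous_zero _ _ _)
      intro t ht
      rw [← h1 b, coeff_map, coeff_zero]
      apply h
      rw [heqs, Finset.mem_image]
      exact ⟨⟨b, ⟨t, Nat.lt_succ_of_le ht⟩⟩, Finset.mem_univ _, rfl⟩
    · intro h q hq
      rw [heqs, Finset.mem_image] at hq
      obtain ⟨p, _, rfl⟩ := hq
      have h2 := congrArg (coeff (ex p.2 ((e p.1 + 2) * (D + 2) - p.2))) (h1 p.1)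
      rw [h p.1, coeff_map, coeff_zero] at h2
      exact h2
  have hItop : I ≠ ⊤ := by
    intro h
    have h1 : I ≤ RingHom.ker (aeval (fun _ => (0 : k)) :
        MvPolynomial (Fin (D + 2 + 1) × Fin (N + 1)) k →ₐ[k] k) := by
      rw [hI, Ideal.span_le]
      have h2 := (hspec (aeval (fun _ => (0 : k)) :
        MvPolynomial (Fin (D + 2 + 1) × Fin (N + 1)) k →ₐ[k] k)).mpr (by
        intro b
        have h3 : curve (D + 2) (fun (l : Fin (D + 2 + 1)) (m : Fin (N + 1)) =>
            (aeval (fun _ => (0 : k)) : MvPolynomial (Fin (D + 2 + 1) × Fin (N + 1)) k →ₐ[k] k)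
              (X (l, m))) = 0 := by
          funext m
          simp [curve]
        rw [h3]
        have h4 : ((aeval (0 : Fin (N + 1) → MvPolynomial (Fin 2) k)) (F b)) =
            algebraMap k _ (constantCoeff (F b)) := by
          rw [← MvPolynomial.aeval_zero]
        rw [h4, constantCoeff_eq, (hF b).coeff_eq_zero (by simp), map_zero])
      intro q hq
      exact h2 q hq
    rw [h, top_le_iff, Ideal.eq_top_iff_one, RingHom.mem_ker, map_one] at h1
    exact one_ne_zero h1
  obtain ⟨⟨P, hPmin⟩⟩ : Nonempty I.minimalPrimes := Ideal.nonempty_minimalPrimes hItop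
  have hP : P.IsPrime := hPmin.1.1
  have hIP : I ≤ P := hPmin.1.2
  have hheight : P.height ≤ eqs.card := Ideal.height_le_card_of_mem_minimalPrimes_span_finset hPmin
  let A := MvPolynomial (Fin (D + 2 + 1) × Fin (N + 1)) k ⧸ P
  let K := FractionRing A
  let φ : MvPolynomial (Fin (D + 2 + 1) × Fin (N + 1)) k →ₐ[k] K :=
    (IsScalarTower.toAlgHom k A K).comp (Ideal.Quotient.mkₐ k P)
  have hφ : ∀ q ∈ eqs, φ q = 0 := by
    intro q hq
    have h1 : Ideal.Quotient.mkₐ k P q = 0 := by
      rw [Ideal.Quotient.mkₐ_eq_mk, Ideal.Quotient.eq_zero_iff_mem]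
      exact hIP (Ideal.subset_span hq)
    change (IsScalarTower.toAlgHom k A K) (Ideal.Quotient.mkₐ k P q) = 0
    rw [h1, map_zero]
  set w : Fin (D + 2 + 1) → Fin (N + 1) → K := fun l m => φ (X (l, m)) with hw
  have hzero : ∀ b, aeval (curve (D + 2) w) (F b) = 0 := (hspec φ).mp hφ
  by_cases hY : ∃ Y : Matrix (Fin (N + 1) × Fin (D + 1)) (Idx e D) K, psi F e D w * Y = 1
  · obtain ⟨Y, hY⟩ := hY
    exact good_transfer hc hF w hzero Y hY
  exfalso
  obtain ⟨v, hv0, hv⟩ := exists_left_kernel _ hY
  obtain ⟨x1, hx1⟩ : ∃ x, v x ≠ 0 := by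
    by_contra h
    push Not at h
    exact hv0 (funext h)
  obtain ⟨x0, hx0mem, hx0max⟩ := Finset.exists_max_image (Finset.univ.filter fun x => v x ≠ 0)
    (fun x : Idx e D => e x.1) ⟨x1, by simp [hx1]⟩
  have hx0 : v x0 ≠ 0 := by simpa using hx0mem
  have hmax : ∀ x, v x ≠ 0 → e x.1 ≤ e x0.1 := fun x hx => hx0max x (by simp [hx])
  set μ : Idx e D → K := fun x => v x / v x0 with hμ
  set i : Fin (D + 2 + 1) := ⟨idx x0, Nat.lt_succ_of_le (idx_le x0)⟩ with hi
  set S1 : Finset K := (Finset.univ.filter (fun p : Fin (D + 2 + 1) × Fin (N + 1) =>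
    p.1 ≠ i)).image (fun p => w p.1 p.2) with hS1
  set S2 : Finset K := (Finset.univ.erase x0).image μ with hS2
  set S : Set K := ((S1 ∪ S2 : Finset K) : Set K) with hS
  have hScard : (S1 ∪ S2).card ≤ (D + 2) * (N + 1) +
      (∑ b, ((e b + 1) * (D + 2) + D + 1) - 1) := by
    refine (Finset.card_union_le _ _).trans (add_le_add ?_ ?_)
    · refine Finset.card_image_le.trans (le_of_eq ?_)
      have h1 : (Finset.univ.filter (fun p : Fin (D + 2 + 1) × Fin (N + 1) => p.1 ≠ i)) =
          (Finset.univ.erase i) ×ˢ (Finset.univ : Finset (Fin (N + 1))) := by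
        ext p
        simp
      rw [h1, Finset.card_product, Finset.card_erase_of_mem (Finset.mem_univ _)]
      simp
    · refine Finset.card_image_le.trans (le_of_eq ?_)
      rw [Finset.card_erase_of_mem (Finset.mem_univ _), Finset.card_univ, card_idx]
  let L := IntermediateField.adjoin k S
  have hwL : ∀ l, l ≠ i → ∀ m, ∃ a : L, algebraMap L K a = w l m := by
    intro l hl m
    have : w l m ∈ S := by
      rw [hS, Finset.mem_coe, Finset.mem_union]
      left
      rw [hS1, Finset.mem_image]
      exact ⟨(l, m), by simp [hl], rfl⟩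
    exact ⟨⟨w l m, IntermediateField.subset_adjoin k S this⟩, rfl⟩
  have hμL : ∀ x, ∃ a : L, algebraMap L K a = μ x := by
    intro x
    by_cases hx : x = x0
    · refine ⟨1, ?_⟩
      rw [map_one, hx, hμ]
      simp only
      rw [div_self hx0]
    · have : μ x ∈ S := by
        rw [hS, Finset.mem_coe, Finset.mem_union]
        right
        rw [hS2, Finset.mem_image]
        exact ⟨x, by simp [hx], rfl⟩
      exact ⟨⟨μ x, IntermediateField.subset_adjoin k S this⟩, rfl⟩
  have hint : ∀ m, IsIntegral L (w i m) := by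
    intro m
    refine bad_integral (L := L) hF he hsm w hzero μ ?_ x0 ?_ ?_ i rfl hwL hμL m
    · intro y
      have := hv y
      have h2 : ∑ x, μ x * psi F e D w x y = (∑ x, v x * psi F e D w x y) / v x0 := by
        rw [Finset.sum_div]
        refine Finset.sum_congr rfl fun x _ => ?_
        rw [hμ]
        ring
      rw [h2, this, zero_div]
    · rw [hμ]
      simp only
      rw [div_self hx0]
    · intro x hx
      apply hmax
      intro h
      apply hx
      rw [hμ]
      simp only
      rw [h, zero_div]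
  have hintall : ∀ p, IsIntegral L (φ p) := by
    intro p
    induction p using MvPolynomial.induction_on with
    | C a =>
      have : φ (C a) = algebraMap L K (algebraMap k L a) := by
        rw [← IsScalarTower.algebraMap_apply k L K]
        exact φ.commutes a
      rw [this]
      exact isIntegral_algebraMap
    | add p q hp hq =>
      rw [map_add]
      exact hp.add hq
    | mul_X p j hp =>
      rw [map_mul]
      apply hp.mul
      by_cases hj : j.1 = i
      · have := hint j.2
        rw [← hj] at this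
        exact this
      · obtain ⟨a, ha⟩ := hwL j.1 hj j.2
        have h1 : φ (X j) = algebraMap L K a := ha.symm
        rw [h1]
        exact isIntegral_algebraMap
  have halg : Algebra.IsAlgebraic L K := by
    constructor
    intro z
    obtain ⟨a, b, _, rfl⟩ := IsFractionRing.div_surjective (A := A) z
    obtain ⟨p, rfl⟩ := Ideal.Quotient.mk_surjective a
    obtain ⟨q, rfl⟩ := Ideal.Quotient.mk_surjective b
    rw [div_eq_mul_inv]
    exact (hintall p).isAlgebraic.mul (hintall q).isAlgebraic.inv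
  have htrK : Algebra.trdeg k K ≤ ((S1 ∪ S2).card : ℕ) := by
    refine (trdeg_le_of_integral S halg).trans (le_of_eq ?_)
    rw [hS]
    exact Cardinal.mk_coe_finset
  have htrA : Algebra.trdeg k A ≤ ((S1 ∪ S2).card : ℕ) := by
    refine le_trans ?_ htrK
    exact trdeg_le_of_injective (IsScalarTower.toAlgHom k A K) (IsFractionRing.injective A K)
  have hfinal := card_le_height_add' P _ htrA
  have h5 : (Fintype.card (Fin (D + 2 + 1) × Fin (N + 1)) : ℕ∞) ≤
      (eqs.card : ℕ∞) + ((S1 ∪ S2).card : ℕ∞) :=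
    hfinal.trans (add_le_add_left hheight _)
  have h6 : Fintype.card (Fin (D + 2 + 1) × Fin (N + 1)) ≤ eqs.card + (S1 ∪ S2).card := by
    exact_mod_cast h5
  rw [Fintype.card_prod, Fintype.card_fin, Fintype.card_fin] at h6
  have h7 : ∑ b, ((e b + 2) * (D + 2) + 1) + ∑ b, ((e b + 1) * (D + 2) + D + 1) =
      2 * (D + 2) * ∑ b, (e b + 2) := by
    rw [← Finset.sum_add_distrib, Finset.mul_sum]
    refine Finset.sum_congr rfl fun b _ => ?_
    ring
  have h8 : 0 < ∑ b, ((e b + 1) * (D + 2) + D + 1) := by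
    apply Finset.sum_pos
    · intro b _
      positivity
    · exact ⟨⟨0, hc⟩, Finset.mem_univ _⟩
  have h9 : (D + 2 + 1) * (N + 1) = (D + 2) * (N + 1) + (N + 1) := by ring
  omega

end Pool.Agent.Helper49.VF
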