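import Pool.Agent.Helper49.VF.Flag

/-!
# Very free rational normal curves in the linear span of a good flag
-/

namespace Pool.Agent.Helper49.VF

open MvPolynomial

variable {k : Type*} [Field k]

/-- The exponent of `s^a t^b`. -/
noncomputable def ex (a b : ℕ) : Fin 2 →₀ ℕ := Finsupp.single 0 a + Finsupp.single 1 b

lemma binary_ext {R : Type*} [CommRing R] {G H : MvPolynomial (Fin 2) R} {n : ℕ}
    (hG : G.IsHomogeneous n)
    (hH : H.IsHomogeneous n) (h : ∀ τ ≤ n, coeff (ex τ (n - τ)) G = coeff (ex τ (n - τ)) H) :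
    G = H := by
  ext m
  by_cases hm : m.degree = n
  · rw [Finsupp.degree_eq_sum, Fin.sum_univ_two] at hm
    have : m = ex (m 0) (n - m 0) := by
      ext i
      fin_cases i
      · simp [ex]
      · simp only [Fin.mk_one, Fin.isValue, ex, Finsupp.add_apply, Finsupp.single_eq_same]
        rw [Finsupp.single_eq_of_ne (by simp)]
        omega
    rw [this]
    exact h _ (by omega)
  · rw [hG.coeff_eq_zero hm, hH.coeff_eq_zero hm]

lemma monomial_ex {R : Type*} [CommRing R] (a b : ℕ) :
    (X 0 ^ a * X 1 ^ b : MvPolynomial (Fin 2) R) = monomial (ex a b) 1 := by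
  rw [X_pow_eq_monomial, X_pow_eq_monomial, monomial_mul, one_mul]
  rfl

lemma ex_eq_iff {a b a' b' : ℕ} : ex a b = ex a' b' ↔ a = a' ∧ b = b' := by
  constructor
  · intro h
    have h0 := DFunLike.congr_fun h 0
    have h1 := DFunLike.congr_fun h 1
    simp [ex] at h0 h1
    exact ⟨h0, h1⟩
  · rintro ⟨rfl, rfl⟩
    rfl

variable {σ : Type*}

/-- The generic point of the linear span of the `w l`, `l ∈ T`. -/
noncomputable def lin (T : Finset ℕ) (w : ℕ → σ → k) : σ → MvPolynomial ℕ k :=
  fun m => ∑ l ∈ T, C (w l m) * X l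

lemma eval_lin (T : Finset ℕ) (w : ℕ → σ → k) (P : MvPolynomial σ k) (y : ℕ → k) :
    eval y (bind₁ (lin T w) P) = eval (fun m => ∑ l ∈ T, y l * w l m) P := by
  rw [eval_bind]
  congr 2
  ext m
  simp [lin, mul_comm]

section

variable [Fintype σ]

variable {c : ℕ} {F : Fin c → MvPolynomial σ k} {e : Fin c → ℕ} {D : ℕ} {w : ℕ → σ → k}
  {v : ℕ → Fin c → σ → k}

lemma IsFlag.zero' [Infinite k] (h : IsFlag F e (D + 1) w v) (b : Fin c) :
    bind₁ (lin (Finset.range (D + 1)) w) (F b) = 0 := by
  apply MvPolynomial.funext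
  intro y
  rw [eval_lin, h.zero y b, map_zero]

lemma IsFlag.grad' [Infinite k] (h : IsFlag F e (D + 1) w v) {i : ℕ} (hi : i < D + 1)
    (a b : Fin c) :
    bind₁ (lin (Finset.Ico i (D + 1)) w) (dirD (v i a) (F b)) =
      if a = b then X i ^ (e b + 1) else 0 := by
  apply MvPolynomial.funext
  intro y
  rw [eval_lin, h.grad i hi a b y]
  split_ifs <;> simp

/-- The generic curve parameters. -/
noncomputable def yy (k : Type*) [Field k] (D : ℕ) (l : ℕ) :
    MvPolynomial (Fin 2) (Polynomial k) :=
  C (Polynomial.X ^ (D ^ (D - l))) * (X 0 ^ l * X 1 ^ (D - l))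

lemma pow_ineq {D i l : ℕ} (hD : 1 ≤ D) (hi : i ≤ D) (hl : l < i) :
    (D - 1) * D ^ (D - i) + 1 ≤ D ^ (D - l) := by
  have h1 : D ^ (D - i + 1) ≤ D ^ (D - l) := Nat.pow_le_pow_right hD (by omega)
  have h2 : 1 ≤ D ^ (D - i) := Nat.one_le_pow _ _ hD
  have h3 : D ^ (D - i + 1) = (D - 1) * D ^ (D - i) + D ^ (D - i) := by
    obtain ⟨D', rfl⟩ : ∃ D', D = D' + 1 := ⟨D - 1, by omega⟩
    simp only [Nat.add_sub_cancel, pow_succ]
    ring
  omega

lemma exists_E [Infinite k] (h : IsFlag F e (D + 1) w v) (hD : ∀ b, e b + 2 ≤ D)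
    {i : ℕ} (hi : i < D + 1) (a b : Fin c) :
    ∃ E : MvPolynomial (Fin 2) (Polynomial k),
      aeval (yy k D) (bind₁ (lin (Finset.range (D + 1)) w) (dirD (v i a) (F b))) =
      C (Polynomial.X ^ ((e a + 1) * D ^ (D - i))) *
        ((if a = b then X 0 ^ ((e a + 1) * i) * X 1 ^ ((e a + 1) * (D - i)) else 0) +
          C Polynomial.X * E) := by
  have hD1 : 1 ≤ D := by
    have := hD a
    omega
  set I : Ideal (MvPolynomial (Fin 2) (Polynomial k)) :=
    Ideal.span {C (Polynomial.X ^ ((D - 1) * D ^ (D - i) + 1))} with hI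
  set π := Ideal.Quotient.mkₐ k I with hπ
  have hmem : ∀ l < i, yy k D l ∈ I := by
    intro l hl
    rw [hI, Ideal.mem_span_singleton, yy]
    apply Dvd.dvd.mul_right
    apply map_dvd C
    exact pow_dvd_pow _ (pow_ineq hD1 (by omega) hl)
  have hlin : ∀ m, π (aeval (yy k D) (lin (Finset.range (D + 1)) w m)) =
      π (aeval (yy k D) (lin (Finset.Ico i (D + 1)) w m)) := by
    intro m
    simp only [lin, map_sum, map_mul, aeval_X, algHom_C]
    rw [← Finset.sum_range_add_sum_Ico _ (show i ≤ D + 1 by omega)]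
    have : ∑ l ∈ Finset.range i,
        π (algebraMap k (MvPolynomial (Fin 2) (Polynomial k)) (w l m)) * π (yy k D l) = 0 := by
      apply Finset.sum_eq_zero
      intro l hl
      have : π (yy k D l) = 0 := by
        change Ideal.Quotient.mk I _ = 0
        rw [Ideal.Quotient.eq_zero_iff_mem]
        exact hmem l (Finset.mem_range.mp hl)
      rw [this, mul_zero]
    rw [this, zero_add]
  have hcong : π (aeval (yy k D) (bind₁ (lin (Finset.range (D + 1)) w) (dirD (v i a) (F b)))) =
      π (aeval (yy k D) (bind₁ (lin (Finset.Ico i (D + 1)) w) (dirD (v i a) (F b)))) := by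
    have hT : ∀ T : Finset ℕ, ∀ P : MvPolynomial σ k,
        π (aeval (yy k D) (bind₁ (lin T w) P)) =
          aeval (fun m => π (aeval (yy k D) (lin T w m))) P := by
      intro T P
      have : (π.comp (aeval (yy k D))).comp (bind₁ (lin T w)) =
          aeval (fun m => π (aeval (yy k D) (lin T w m))) := by
        apply MvPolynomial.algHom_ext
        intro m
        rw [AlgHom.comp_apply, AlgHom.comp_apply, bind₁_X_right, aeval_X]
      exact DFunLike.congr_fun this P
    rw [hT, hT]
    congr 2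
    ext m
    exact hlin m
  rw [h.grad' hi] at hcong
  have hsub : aeval (yy k D) (bind₁ (lin (Finset.range (D + 1)) w) (dirD (v i a) (F b))) -
      aeval (yy k D) (if a = b then X i ^ (e b + 1) else 0 : MvPolynomial ℕ k) ∈ I := by
    rw [← Ideal.Quotient.eq]
    exact hcong
  rw [hI, Ideal.mem_span_singleton] at hsub
  obtain ⟨E', hE'⟩ := hsub
  have hsplit : (D - 1) * D ^ (D - i) + 1 =
      (e a + 1) * D ^ (D - i) + (1 + (D - 1 - (e a + 1)) * D ^ (D - i)) := by
    have h1 : D - 1 = (e a + 1) + (D - 1 - (e a + 1)) := by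
      have := hD a
      omega
    conv_lhs => rw [h1]
    ring
  refine ⟨C (Polynomial.X ^ ((D - 1 - (e a + 1)) * D ^ (D - i))) * E', ?_⟩
  rw [sub_eq_iff_eq_add] at hE'
  have hA : aeval (yy k D) (if a = b then X i ^ (e b + 1) else 0 : MvPolynomial ℕ k) =
      C (Polynomial.X ^ ((e a + 1) * D ^ (D - i))) *
        (if a = b then X 0 ^ ((e a + 1) * i) * X 1 ^ ((e a + 1) * (D - i)) else 0) := by
    by_cases hab : a = b
    · subst hab
      rw [if_pos rfl, if_pos rfl, map_pow, aeval_X, yy, mul_pow, mul_pow, ← map_pow, ← pow_mul,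
        ← pow_mul, ← pow_mul, mul_comm (D ^ (D - i)), mul_comm i, mul_comm (D - i)]
    · rw [if_neg hab, if_neg hab, map_zero, mul_zero]
  have hB : (C (Polynomial.X ^ ((D - 1) * D ^ (D - i) + 1)) : MvPolynomial (Fin 2) (Polynomial k)) =
      C (Polynomial.X ^ ((e a + 1) * D ^ (D - i))) * (C Polynomial.X *
        C (Polynomial.X ^ ((D - 1 - (e a + 1)) * D ^ (D - i)))) := by
    rw [hsplit, pow_add, pow_add, pow_one, map_mul, map_mul]
  rw [hE', hA, hB]
  ring

end

/-- Index type of the (square) matrix: the pairs `(b, τ)` with `τ ≤ (e b + 1) * (D + 2) + D`. -/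
abbrev Idx {c : ℕ} (e : Fin c → ℕ) (D : ℕ) := Σ b : Fin c, Fin ((e b + 1) * (D + 2) + D + 1)

/-- The index of the flag vector used for the monomial. -/
def idx {c : ℕ} {e : Fin c → ℕ} {D : ℕ} (x : Idx e D) : ℕ :=
  min (D + 2) ((x.2 : ℕ) / (e x.1 + 1))

lemma idx_le {c : ℕ} {e : Fin c → ℕ} {D : ℕ} (x : Idx e D) : idx x ≤ D + 2 := min_le_left _ _

lemma idx_mul_le {c : ℕ} {e : Fin c → ℕ} {D : ℕ} (x : Idx e D) :
    (e x.1 + 1) * idx x ≤ (x.2 : ℕ) :=
  (Nat.mul_le_mul_left _ (min_le_right _ _)).trans (Nat.mul_div_le _ _)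

lemma rem_le {c : ℕ} {e : Fin c → ℕ} {D : ℕ} (he : ∀ b, e b ≤ D) (x : Idx e D) :
    (x.2 : ℕ) ≤ (e x.1 + 1) * idx x + D := by
  have h1 := x.2.2
  have h2 := he x.1
  unfold idx
  rcases le_total (D + 2) ((x.2 : ℕ) / (e x.1 + 1)) with h | h
  · rw [min_eq_left h]
    omega
  · rw [min_eq_right h]
    have h3 := Nat.mod_lt (x.2 : ℕ) (show 0 < e x.1 + 1 by omega)
    have h4 := Nat.div_add_mod (x.2 : ℕ) (e x.1 + 1)
    omega

theorem hasVeryFreeCurve_of_flag [Infinite k] {N c D : ℕ} (hc : 0 < c)
    {F : Fin c → MvPolynomial (Fin (N + 1)) k} {e : Fin c → ℕ}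
    (hF : ∀ b, (F b).IsHomogeneous (e b + 2)) (he : ∀ b, e b ≤ D)
    {w : ℕ → Fin (N + 1) → k} {v : ℕ → Fin c → Fin (N + 1) → k}
    (h : IsFlag F e (D + 2 + 1) w v) : HasVeryFreeCurve F (D + 2) := by
  classical
  have hE : ∀ (i : ℕ) (a b : Fin c), ∃ E : MvPolynomial (Fin 2) (Polynomial k), i < D + 2 + 1 →
      aeval (yy k (D + 2)) (bind₁ (lin (Finset.range (D + 2 + 1)) w) (dirD (v i a) (F b))) =
      C (Polynomial.X ^ ((e a + 1) * (D + 2) ^ (D + 2 - i))) *
        ((if a = b then X 0 ^ ((e a + 1) * i) * X 1 ^ ((e a + 1) * (D + 2 - i)) else 0) +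
          C Polynomial.X * E) := by
    intro i a b
    by_cases hi : i < D + 2 + 1
    · obtain ⟨E, hE⟩ := exists_E h (fun b => by have := he b; omega) hi a b
      exact ⟨E, fun _ => hE⟩
    · exact ⟨0, fun h => absurd h hi⟩
  choose E hE using hE
  set n : Fin c → ℕ := fun b => (e b + 1) * (D + 2) + D with hn
  set G : Idx e D → Idx e D → MvPolynomial (Fin 2) (Polynomial k) := fun x' x =>
    (X 0 ^ ((x.2 : ℕ) - (e x.1 + 1) * idx x) * X 1 ^ (D - ((x.2 : ℕ) - (e x.1 + 1) * idx x))) *
      ((if x.1 = x'.1 then X 0 ^ ((e x.1 + 1) * idx x) * X 1 ^ ((e x.1 + 1) * (D + 2 - idx x))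
        else 0) + C Polynomial.X * E (idx x) x.1 x'.1) with hG
  set M : Matrix (Idx e D) (Idx e D) (Polynomial k) := fun x' x =>
    coeff (ex x'.2 (n x'.1 - x'.2)) (G x' x) with hM
  have hM0 : M.map (Polynomial.evalRingHom (0 : k)) = 1 := by
    ext x' x
    rw [Matrix.map_apply, Matrix.one_apply, hM]
    simp only
    rw [← coeff_map, hG]
    simp only [map_mul, map_add, map_pow, map_X, map_C, Polynomial.coe_evalRingHom,
      Polynomial.eval_X, map_zero, zero_mul, add_zero]
    obtain ⟨b, τ⟩ := x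
    obtain ⟨b', τ'⟩ := x'
    by_cases hb : b = b'
    · subst hb
      have h1 := idx_mul_le (⟨b, τ⟩ : Idx e D)
      have h2 := rem_le he (⟨b, τ⟩ : Idx e D)
      have h3 := idx_le (⟨b, τ⟩ : Idx e D)
      set j := idx (⟨b, τ⟩ : Idx e D) with hj
      simp only [if_true] at h1 h2 ⊢
      simp only [map_mul, map_pow, map_X]
      rw [monomial_ex, monomial_ex, monomial_mul, one_mul, coeff_monomial]
      have h4 : ex ((τ : ℕ) - (e b + 1) * j) (D - ((τ : ℕ) - (e b + 1) * j)) +
          ex ((e b + 1) * j) ((e b + 1) * (D + 2 - j)) = ex τ (n b - τ) := by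
        have h5 : (e b + 1) * (D + 2 - j) + (e b + 1) * j = (e b + 1) * (D + 2) := by
          rw [← mul_add]
          congr 1
          omega
        ext i
        fin_cases i
        · simp [ex]
          omega
        · simp [ex, hn]
          omega
      rw [h4]
      by_cases hττ : τ' = τ
      · subst hττ
        simp
      · rw [if_neg, if_neg]
        · intro hh
          apply hττ
          simpa using hh
        · intro hh
          rw [ex_eq_iff] at hh
          exact hττ (Fin.ext hh.1.symm)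
    · simp only [if_neg hb]
      rw [if_neg]
      · simp
      · intro hh
        apply hb
        have := congrArg Sigma.fst hh
        exact this.symm
  have hdet0 : Polynomial.eval 0 M.det = 1 := by
    have := RingHom.map_det (Polynomial.evalRingHom (0 : k)) M
    rw [RingHom.mapMatrix_apply, hM0, Matrix.det_one] at this
    simpa using this
  obtain ⟨r, hr⟩ : ∃ r : k, Polynomial.eval r (Polynomial.X * M.det) ≠ 0 := by
    by_contra hcon
    push Not at hcon
    have hz : Polynomial.X * M.det = 0 := by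
      apply Polynomial.funext
      intro r
      rw [hcon r, Polynomial.eval_zero]
    rcases mul_eq_zero.mp hz with h1 | h1
    · exact Polynomial.X_ne_zero h1
    · rw [h1] at hdet0
      simp at hdet0
  rw [Polynomial.eval_mul, Polynomial.eval_X] at hr
  have hr0 : r ≠ 0 := left_ne_zero_of_mul hr
  have hdetr : Polynomial.eval r M.det ≠ 0 := right_ne_zero_of_mul hr
  set Mr : Matrix (Idx e D) (Idx e D) k := M.map (Polynomial.evalRingHom r) with hMr
  have hMrdet : IsUnit Mr.det := by
    rw [isUnit_iff_ne_zero, hMr, ← RingHom.mapMatrix_apply, ← RingHom.map_det]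
    exact hdetr
  -- the curve
  set θ : MvPolynomial (Fin 2) (Polynomial k) →ₐ[k] MvPolynomial (Fin 2) k :=
    MvPolynomial.mapAlgHom (Polynomial.aeval r) with hθ
  set y : ℕ → MvPolynomial (Fin 2) k := fun l => θ (yy k (D + 2) l) with hy
  have hy' : ∀ l, y l = C (r ^ ((D + 2) ^ (D + 2 - l))) * (X 0 ^ l * X 1 ^ (D + 2 - l)) := by
    intro l
    simp [hy, hθ, yy]
  set f : Fin (N + 1) → MvPolynomial (Fin 2) k := fun m =>
    aeval y (lin (Finset.range (D + 2 + 1)) w m) with hf
  have hf' : ∀ m, f m = ∑ l ∈ Finset.range (D + 2 + 1), C (w l m) * y l := by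
    intro m
    simp [hf, lin, algebraMap_eq]
  have hyh : ∀ l ∈ Finset.range (D + 2 + 1), (y l).IsHomogeneous (D + 2) := by
    intro l hl
    rw [hy']
    apply IsHomogeneous.C_mul
    have := (isHomogeneous_X_pow (R := k) (0 : Fin 2) l).mul
      (isHomogeneous_X_pow (R := k) (1 : Fin 2) (D + 2 - l))
    have h2 : l + (D + 2 - l) = D + 2 := by
      have := Finset.mem_range.mp hl
      omega
    rwa [h2] at this
  have hfh : ∀ m, (f m).IsHomogeneous (D + 2) := by
    intro m
    rw [hf']
    apply IsHomogeneous.sum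
    intro l hl
    exact (hyh l hl).C_mul _
  have hbind : ∀ P : MvPolynomial (Fin (N + 1)) k,
      bind₁ f P = aeval y (bind₁ (lin (Finset.range (D + 2 + 1)) w) P) := by
    intro P
    rw [aeval_bind₁]
    rfl
  have hcurve : IsRationalCurve F (D + 2) f := by
    refine ⟨hfh, ?_, ?_⟩
    · intro z hz
      by_contra hcon
      push Not at hcon
      set q : ℕ → k := fun l => eval z (y l) with hq
      have hq' : ∀ l, q l = r ^ ((D + 2) ^ (D + 2 - l)) * (z 0 ^ l * z 1 ^ (D + 2 - l)) := by
        intro l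
        simp [hq, hy']
      have hsum : ∀ m, ∑ l ∈ Finset.range (D + 2 + 1), q l * w l m = 0 := by
        intro m
        have := hcon m
        rw [hf', map_sum] at this
        rw [← this]
        refine Finset.sum_congr rfl fun l _ => ?_
        simp [hq, mul_comm]
      have a : Fin c := ⟨0, hc⟩
      have hzero : ∀ i, eval (fun _ => (0 : k)) (dirD (v i a) (F a)) = 0 := by
        intro i
        have h0 := MvPolynomial.eval_zero' (R := k) (σ := Fin (N + 1))
        rw [h0, constantCoeff_eq]
        apply (dirD_homogeneous (v i a) (hF a)).coeff_eq_zero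
        simp
      by_cases h1 : z 1 = 0
      · have h0 : z 0 ≠ 0 := by
          intro h0
          apply hz
          ext i
          fin_cases i
          · simpa using h0
          · simpa using h1
        have hql : ∀ l ∈ Finset.range (D + 2), q l = 0 := by
          intro l hl
          have := Finset.mem_range.mp hl
          rw [hq', h1, zero_pow (by omega)]
          ring
        have hqD : q (D + 2) ≠ 0 := by
          rw [hq']
          simp [hr0, h0]
        have h2 := h.grad (D + 2) (by omega) a a q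
        rw [if_pos rfl] at h2
        have h3 : ∀ m, ∑ l ∈ Finset.Ico (D + 2) (D + 2 + 1), q l * w l m = 0 := by
          intro m
          have := hsum m
          rw [Finset.sum_range_succ, Finset.sum_eq_zero, zero_add] at this
          · simpa using this
          · intro l hl
            rw [hql l hl, zero_mul]
        simp only [h3] at h2
        rw [hzero] at h2
        exact pow_ne_zero _ hqD h2.symm
      · have hq0 : q 0 ≠ 0 := by
          rw [hq']
          simp [hr0, h1]
        have h2 := h.grad 0 (by omega) a a q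
        rw [if_pos rfl] at h2
        have h3 : ∀ m, ∑ l ∈ Finset.Ico 0 (D + 2 + 1), q l * w l m = 0 := by
          intro m
          have := hsum m
          rwa [Finset.range_eq_Ico] at this
        simp only [h3] at h2
        rw [hzero] at h2
        exact pow_ne_zero _ hq0 h2.symm
    · intro b
      rw [hbind, h.zero' b, map_zero]
  refine ⟨by omega, f, hcurve, ?_⟩
  apply isVeryFree_of_surj (d := fun b => e b + 1) (fun b => hF b) hfh
  intro H hH
  -- solve the linear system
  set hv : Idx e D → k := fun x => coeff (ex x.2 (n x.1 - x.2)) (H x.1) with hhv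
  set sol : Idx e D → k := Mr⁻¹.mulVec hv with hsol
  have hsol' : Mr.mulVec sol = hv := by
    rw [hsol, Matrix.mulVec_mulVec, Matrix.mul_nonsing_inv _ hMrdet, Matrix.one_mulVec]
  set mo : Idx e D → MvPolynomial (Fin 2) k := fun x =>
    X 0 ^ ((x.2 : ℕ) - (e x.1 + 1) * idx x) * X 1 ^ (D - ((x.2 : ℕ) - (e x.1 + 1) * idx x))
    with hmo
  have hmoh : ∀ x, (mo x).IsHomogeneous D := by
    intro x
    have := (isHomogeneous_X_pow (R := k) (0 : Fin 2) ((x.2 : ℕ) - (e x.1 + 1) * idx x)).mul
      (isHomogeneous_X_pow (R := k) (1 : Fin 2) (D - ((x.2 : ℕ) - (e x.1 + 1) * idx x)))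
    have h2 := rem_le he x
    have h3 : (x.2 : ℕ) - (e x.1 + 1) * idx x + (D - ((x.2 : ℕ) - (e x.1 + 1) * idx x)) = D := by
      omega
    rwa [h3] at this
  set sc : Idx e D → k := fun x =>
    sol x * (r ^ ((e x.1 + 1) * (D + 2) ^ (D + 2 - idx x)))⁻¹ with hsc
  refine ⟨fun m => ∑ x, C (sc x * v (idx x) x.1 m) * mo x, ?_, ?_⟩
  · intro m
    apply IsHomogeneous.sum
    intro x _
    exact (hmoh x).C_mul _
  · intro b
    have hkey : ∑ i, bind₁ f (pderiv i (F b)) * ∑ x, C (sc x * v (idx x) x.1 i) * mo x =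
        ∑ x : Idx e D, C (sc x) * mo x * bind₁ f (dirD (v (idx x) x.1) (F b)) := by
      simp only [Finset.mul_sum]
      rw [Finset.sum_comm]
      refine Finset.sum_congr rfl fun x _ => ?_
      rw [dirD, map_sum, Finset.mul_sum]
      refine Finset.sum_congr rfl fun m _ => ?_
      have hc1 : (C (sc x * v (idx x) x.1 m) : MvPolynomial (Fin 2) k) =
          C (sc x) * C (v (idx x) x.1 m) := map_mul _ _ _
      have hc2 : bind₁ f (C (v (idx x) x.1 m) * pderiv m (F b)) =
          C (v (idx x) x.1 m) * bind₁ f (pderiv m (F b)) := by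
        rw [map_mul, bind₁_C_right]
      rw [hc1, hc2]
      ring
    have hterm : ∀ x : Idx e D, C (sc x) * mo x * bind₁ f (dirD (v (idx x) x.1) (F b)) =
        C (sol x) * (mo x * ((if x.1 = b then X 0 ^ ((e x.1 + 1) * idx x) *
          X 1 ^ ((e x.1 + 1) * (D + 2 - idx x)) else 0) +
          C r * θ (E (idx x) x.1 b))) := by
      intro x
      have h1 : bind₁ f (dirD (v (idx x) x.1) (F b)) =
          C (r ^ ((e x.1 + 1) * (D + 2) ^ (D + 2 - idx x))) * ((if x.1 = b then
          X 0 ^ ((e x.1 + 1) * idx x) * X 1 ^ ((e x.1 + 1) * (D + 2 - idx x)) else 0) +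
          C r * θ (E (idx x) x.1 b)) := by
        rw [hbind]
        have h2 : ∀ P : MvPolynomial ℕ k, aeval y P = θ (aeval (yy k (D + 2)) P) := by
          intro P
          rw [comp_aeval_apply]
        rw [h2, hE _ _ _ (Nat.lt_succ_of_le (idx_le x)), map_mul, map_add, map_mul]
        congr 1
        · simp [hθ]
        · congr 1
          · split_ifs
            · simp [hθ]
            · simp
          · congr 1
            simp [hθ]
      rw [h1, hsc]
      simp only
      have h3 : r ^ ((e x.1 + 1) * (D + 2) ^ (D + 2 - idx x)) ≠ 0 := pow_ne_zero _ hr0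
      have h4 : (C (sol x * (r ^ ((e x.1 + 1) * (D + 2) ^ (D + 2 - idx x)))⁻¹) :
          MvPolynomial (Fin 2) k) * C (r ^ ((e x.1 + 1) * (D + 2) ^ (D + 2 - idx x))) =
          C (sol x) := by
        rw [← map_mul, mul_assoc, inv_mul_cancel₀ h3, mul_one]
      rw [← h4]
      ring
    apply binary_ext (n := n b)
    · apply IsHomogeneous.sum
      intro i _
      have h1 : (pderiv i (F b)).IsHomogeneous (e b + 1) := by
        simpa using (hF b).pderiv (i := i)
      have h2 := h1.aeval f hfh
      rw [mul_comm] at h2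
      apply h2.mul
      apply IsHomogeneous.sum
      intro x _
      exact (hmoh x).C_mul _
    · exact hH b
    · intro τ hτ
      rw [hkey, Finset.sum_congr rfl fun x _ => hterm x, coeff_sum]
      have h1 := congrFun hsol' ⟨b, ⟨τ, by simp only [hn] at hτ; omega⟩⟩
      rw [Matrix.mulVec, dotProduct] at h1
      rw [hhv] at h1
      simp only at h1
      rw [← h1]
      refine Finset.sum_congr rfl fun x _ => ?_
      rw [coeff_C_mul, mul_comm]
      congr 1
      rw [hMr, Matrix.map_apply, hM]
      simp only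
      rw [← coeff_map]
      congr 1
      rw [hG]
      simp only [map_mul, map_add, map_pow, map_X, map_C, Polynomial.coe_evalRingHom,
      Polynomial.eval_X]
      congr 2
      split_ifs
      · simp
      · simp

end Pool.Agent.Helper49.VF
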